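import Mathlib

/-!
# Letters in beginnings of words

`l.take (j + 1) = l.take j ++ [z]` if `l[j]? = some z` (`List.take_succ`); `List.take` of sublists
(`(l.take i).count z ≤ (l.take j).count z`). `count_take_eq`: induction on `j`.
-/

namespace Pool.Agent.SF

/-- the number of the letters `z` in the first `j + 1` letters if the letter number `j` is `z` -/
theorem count_take_lt {l : List ℕ} {i j z : ℕ} (hij : i ≤ j) (hj : l[j]? = some z) :
    (l.take i).count z < (l.take (j + 1)).count z := by
  have h1 : (l.take i).count z ≤ (l.take j).count z :=
    (List.take_sublist_take_left hij).count_le z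
  have h2 : l.take (j + 1) = l.take j ++ [z] := by
    rw [List.take_add_one, hj]
    rfl
  rw [h2, List.count_append]
  simp only [List.count_singleton_self]
  omega

/-- no letter `z` between `i` and `j` -/
theorem count_take_eq {l : List ℕ} {i j z : ℕ} (hij : i ≤ j)
    (h : ∀ t, i ≤ t → t < j → l[t]? ≠ some z) : (l.take i).count z = (l.take j).count z := by
  induction j, hij using Nat.le_induction with
  | base => rfl
  | succ j hj ih =>
    have h1 := ih fun t ht htj => h t ht (by omega)
    have h2 := h j hj (by omega)
    rw [h1, List.take_add_one, List.count_append]
    cases hl : l[j]? with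
    | none => simp
    | some a =>
      have ha : a ≠ z := fun e => h2 (by rw [hl, e])
      simp [ha]

end Pool.Agent.SF
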