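import Mathlib

/-!
# Long words

If a word longer than `n` is accepted there is one with length in `(n, n + m]`: take an accepted word `w` of
minimal length `> n`; if `w.length > n + m` two of the states after `n, n + 1, .., n + m` letters are equal
(`Fintype.exists_ne_map_eq_of_card_lt` for `Fin (m + 1) → Fin m`), remove the letters between them.
(`DFA.evalFrom_split` in Mathlib may help.)
-/

namespace Pool.Agent.SF

private theorem Pump_cut {s m : ℕ} (M : DFA (Fin s) (Fin m)) (w : List (Fin s)) {i j : ℕ}
    (h : M.eval (w.take i) = M.eval (w.take j)) :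
    M.eval (w.take i ++ w.drop j) = M.eval w := by
  unfold DFA.eval at h ⊢
  rw [DFA.evalFrom_of_append, h, ← DFA.evalFrom_of_append, List.take_append_drop]

theorem pump {s m : ℕ} (M : DFA (Fin s) (Fin m)) (n : ℕ) {w : List (Fin s)} (hw : w ∈ M.accepts)
    (hn : n < w.length) : ∃ w' ∈ M.accepts, n < w'.length ∧ w'.length ≤ n + m := by
  have key : ∀ (N : ℕ) (w : List (Fin s)), w.length = N → w ∈ M.accepts → n < w.length →
      ∃ w' ∈ M.accepts, n < w'.length ∧ w'.length ≤ n + m := by
    intro N
    induction N using Nat.strong_induction_on with
    | _ N ih =>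
      intro w hN hw hn
      by_cases hm : w.length ≤ n + m
      · exact ⟨w, hw, hn, hm⟩
      obtain ⟨i, j, hij, hf⟩ := Fintype.exists_ne_map_eq_of_card_lt
        (fun i : Fin (m + 1) => M.eval (w.take (n + i))) (by simp)
      have main : ∀ i j : Fin (m + 1), (i : ℕ) < j →
          M.eval (w.take (n + i)) = M.eval (w.take (n + j)) →
          ∃ w' ∈ M.accepts, n < w'.length ∧ w'.length ≤ n + m := by
        intro i j hij hf
        have hj := j.2
        have hl : (w.take (n + i) ++ w.drop (n + j)).length = w.length - ((j : ℕ) - i) := by
          rw [List.length_append, List.length_take, List.length_drop]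
          omega
        refine ih _ ?_ (w.take (n + i) ++ w.drop (n + j)) rfl ?_ ?_
        · rw [hl]
          omega
        · rw [DFA.mem_accepts, Pump_cut M w hf]
          exact hw
        · rw [hl]
          omega
      rcases lt_or_gt_of_ne (fun h => hij (Fin.ext h) : (i : ℕ) ≠ j) with h | h
      · exact main i j h hf
      · exact main j i h hf.symm
  exact key _ w rfl hw hn

end Pool.Agent.SF
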