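import Pool.Agent.H.MP_53e59f_lc.SF.Itr
import Pool.Agent.H.MP_53e59f_lc.SF.Pump

/-!
# Correctness for instances

`alg_dat` from `alg_iff` (with `m = x.m = tab.length`), `Sh_map`, `Sh_map_ex` (an interleaving has
length `u.length + v.length`) and `pump` with `n = u.length + v.length` (an accepted word longer than `n` is not an
interleaving). `cap_ge`: `4 ^ r ≤ (2 ^ log) ^ (2 * c) ≤ N ^ (2 * c)` (`Nat.pow_log_le_self`); the table has `x.m` rows.
`dec_iff`: the minimum `r` of the two numbers of blocks is `≤ c * log`; `common_map`, `runs_map`; the second case with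
`Sh.symm` and `common v u`.
-/

namespace Pool.Agent.SF

theorem Corr_len (x : Inst) : x.dat.2.1.length = x.m := by
  change ((List.finRange x.m).map _).length = x.m
  rw [List.length_map, List.length_finRange]

theorem Corr_lt {s : ℕ} (w : List (Fin s)) : ∀ a ∈ w.map Fin.val, a < s := by
  intro a ha
  obtain ⟨b, -, rfl⟩ := List.mem_map.1 ha
  exact b.2

theorem Corr_acc (x : Inst) (w : List (Fin x.s)) :
    x.dat.2.2.2.1.getD (ev x.dat.2.1 x.dat.2.2.1 (w.map Fin.val)) false = false ↔
      w ∉ x.M.accepts := by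
  rw [← acc_dat, Bool.not_eq_true]

/-- The algorithm for two words `u`, `v` (the words of the instance in one of the two orders). -/
theorem alg_dat (x : Inst) {r C : ℕ} (u v : List (Fin x.s)) (hr : runs (common u v) ≤ r)
    (hC : x.m * bnd x.s (u.length + v.length + x.m + 1) r ≤ C) :
    ((alg x.s x.dat.2.1 x.dat.2.2.1 x.dat.2.2.2.1 (u.map Fin.val) (v.map Fin.val) C).1 = true ↔
      ∃ w, w ∈ x.M.accepts ∧ ¬ Sh u v w) ∧
    ((alg x.s x.dat.2.1 x.dat.2.2.1 x.dat.2.2.2.1 (u.map Fin.val) (v.map Fin.val) C).2 = true ↔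
      ∃ w, w ∉ x.M.accepts ∧ Sh u v w) := by
  have hr' : runs (common (u.map Fin.val) (v.map Fin.val)) ≤ r := by
    rw [common_map Fin.val_injective, runs_map Fin.val_injective]
    exact hr
  have hm : ∀ w : List ℕ, (∀ a ∈ w, a < x.s) → ev x.dat.2.1 x.dat.2.2.1 w < x.m := by
    intro w hw
    obtain ⟨w', rfl⟩ := ex_map hw
    rw [ev_dat]
    exact (x.M.eval w').2
  have hC' : x.m * bnd x.s ((u.map Fin.val).length + (v.map Fin.val).length +
      x.dat.2.1.length + 1) r ≤ C := by
    rw [Corr_len, List.length_map, List.length_map]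
    exact hC
  obtain ⟨h1, h2⟩ := alg_iff (acc := x.dat.2.2.2.1) hr' hm hC'
  refine ⟨h1.trans ?_, h2.trans ?_⟩
  · constructor
    · rintro ⟨w, -, hw, ha, hs⟩
      obtain ⟨w', rfl⟩ := ex_map hw
      exact ⟨w', (acc_dat x w').1 ha, fun h => hs ((Sh_map Fin.val_injective).2 h)⟩
    · have key : ∀ w : List (Fin x.s), w ∈ x.M.accepts → ¬ Sh u v w →
          w.length ≤ u.length + v.length + x.m → ∃ w : List ℕ,
          w.length ≤ (u.map Fin.val).length + (v.map Fin.val).length + x.dat.2.1.length ∧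
          (∀ a ∈ w, a < x.s) ∧ x.dat.2.2.2.1.getD (ev x.dat.2.1 x.dat.2.2.1 w) false = true ∧
          ¬ Sh (u.map Fin.val) (v.map Fin.val) w := by
        intro w ha hs hl
        refine ⟨w.map Fin.val, ?_, Corr_lt w, (acc_dat x w).2 ha,
          fun h => hs ((Sh_map Fin.val_injective).1 h)⟩
        rw [List.length_map, List.length_map, List.length_map, Corr_len]
        exact hl
      rintro ⟨w, ha, hs⟩
      rcases Nat.lt_or_ge (u.length + v.length) w.length with h | h
      · obtain ⟨w', ha', h1', h2'⟩ := pump x.M (u.length + v.length) ha h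
        refine key w' ha' (fun h3 => ?_) h2'
        have h4 := h3.length
        omega
      · exact key w ha hs (by omega)
  · constructor
    · rintro ⟨w, -, hw, ha, hs⟩
      obtain ⟨w', rfl⟩ := ex_map hw
      exact ⟨w', (Corr_acc x w').1 ha, (Sh_map Fin.val_injective).1 hs⟩
    · rintro ⟨w, ha, hs⟩
      refine ⟨w.map Fin.val, ?_, Corr_lt w, (Corr_acc x w).2 ha, (Sh_map Fin.val_injective).2 hs⟩
      rw [List.length_map, List.length_map, List.length_map, hs.length]
      omega

theorem Corr_pow {r c N : ℕ} (hN : N ≠ 0) (hr : r ≤ c * Nat.log 2 N) :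
    4 ^ (r + 1) ≤ 4 * N ^ (2 * c) := by
  have h1 : (2 ^ Nat.log 2 N) ^ (2 * c) ≤ N ^ (2 * c) :=
    Nat.pow_le_pow_left (Nat.pow_log_le_self 2 hN) _
  have h2 : 4 ^ r ≤ (2 ^ Nat.log 2 N) ^ (2 * c) := by
    rw [show (4 : ℕ) = 2 ^ 2 from rfl, ← pow_mul, ← pow_mul]
    refine Nat.pow_le_pow_right (by omega) ?_
    calc 2 * r ≤ 2 * (c * Nat.log 2 N) := Nat.mul_le_mul_left _ hr
      _ = Nat.log 2 N * (2 * c) := by ring
  rw [pow_succ']
  exact Nat.mul_le_mul_left _ (h2.trans h1)

/-- The bound is large enough. -/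
theorem cap_ge (x : Inst) {r c : ℕ} (hr : r ≤ c * Nat.log 2 x.encode.length) :
    x.m * bnd x.s (x.u.length + x.v.length + x.m + 1) r ≤ cap c x.dat := by
  have h1 := Corr_pow (N := x.encode.length) (by
    rw [Inst.encode, Pool.Agent.H.MP_5be563_lc.PT.D.bits_length]
    exact Nat.ne_of_gt (Pool.Agent.H.MP_5be563_lc.PT.D.size_pos _)) hr
  have e1 : x.dat.2.2.2.2.1.length = x.u.length := List.length_map _
  have e2 : x.dat.2.2.2.2.2.length = x.v.length := List.length_map _
  unfold cap bnd
  rw [Corr_len, e1, e2]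
  exact Nat.mul_le_mul_left _ (Nat.mul_le_mul_left _ h1)

theorem dec_iff (x : Inst) {c : ℕ}
    (h : runs (common x.u x.v) ≤ c * Nat.log 2 x.encode.length ∨
      runs (common x.v x.u) ≤ c * Nat.log 2 x.encode.length) :
    ((dec c x.dat).1 = true ↔ ∃ w, w ∈ x.M.accepts ∧ ¬ Sh x.u x.v w) ∧
    ((dec c x.dat).2 = true ↔ ∃ w, w ∉ x.M.accepts ∧ Sh x.u x.v w) := by
  have e1 : runs (common x.dat.2.2.2.2.1 x.dat.2.2.2.2.2) = runs (common x.u x.v) := by
    change runs (common (x.u.map Fin.val) (x.v.map Fin.val)) = _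
    rw [common_map Fin.val_injective, runs_map Fin.val_injective]
  have e2 : runs (common x.dat.2.2.2.2.2 x.dat.2.2.2.2.1) = runs (common x.v x.u) := by
    change runs (common (x.v.map Fin.val) (x.u.map Fin.val)) = _
    rw [common_map Fin.val_injective, runs_map Fin.val_injective]
  unfold dec
  rw [e1, e2]
  by_cases h1 : runs (common x.u x.v) ≤ runs (common x.v x.u)
  · rw [if_pos h1]
    have h2 : runs (common x.u x.v) ≤ c * Nat.log 2 x.encode.length := h.elim id h1.trans
    exact alg_dat x x.u x.v le_rfl (cap_ge x h2)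
  · rw [if_neg h1]
    have h2 : runs (common x.v x.u) ≤ c * Nat.log 2 x.encode.length :=
      h.elim (fun h3 => (Nat.le_of_not_le h1).trans h3) id
    have h3 := cap_ge x h2
    rw [Nat.add_comm x.u.length x.v.length] at h3
    have h4 := alg_dat x x.v x.u le_rfl h3
    have e3 : ∀ w, Sh x.v x.u w ↔ Sh x.u x.v w := fun w => ⟨Sh.symm, Sh.symm⟩
    simp only [e3] at h4
    exact h4

end Pool.Agent.SF
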