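import Pool.Agent.H.MP_53e59f_lc.SF.Defs

/-!
# The columns

`cover_aux` by induction on `u`. `u = []`: `cs = [(0, 0, x)]`. `a :: u` with the columns `(0, E, x) :: cs` of `u`
(`x` = the first letter of `common u v` if there is one), all columns of `cs` start at `≥ 1`:
* `a ∉ v`: `(0, E + 1, x)`, the others shifted by `1`.
* `a ∈ v` and `common u v = []`: then `(0, u.length + 1, a)` alone is good.
* `a ∈ v`, `common u v = b :: _`, `b = a`: `(0, E + 1, a)`, the others shifted.
* `a ∈ v`, `common u v = b :: _`, `b ≠ a`: `(0, 1, a)`, then `(1, E + 1, b)`, the others shifted.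
-/

namespace Pool.Agent.SF

/-- the shifted column -/
private def Cover_sh (c : ℕ × ℕ × ℕ) : ℕ × ℕ × ℕ := (c.1 + 1, c.2.1 + 1, c.2.2)

private theorem Cover_shift {a A E x : ℕ} {u v : List ℕ} (hA : 1 ≤ A) (h : Colm u v A E x) :
    Colm (a :: u) v (A + 1) (E + 1) x := by
  refine ⟨by have := h.le; omega, ?_, ?_, ?_⟩
  · have := h.len
    rw [List.length_cons]
    omega
  · intro j hj1 hj2 b hb
    obtain ⟨i, rfl⟩ : ∃ i, j = i + 1 := ⟨j - 1, by omega⟩
    rw [List.getElem?_cons_succ] at hb
    exact h.ltr i (by omega) (by omega) b hb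
  · right
    rcases h.left with h1 | h1
    · omega
    · obtain ⟨B, rfl⟩ : ∃ B, A = B + 1 := ⟨A - 1, by omega⟩
      rw [Nat.add_sub_cancel, List.getElem?_cons_succ]
      rw [Nat.add_sub_cancel] at h1
      exact h1

private theorem Cover_zero {a E x y : ℕ} {u v : List ℕ} (h : Colm u v 0 E x) (hx : y = x ∨ E = 0)
    (ha : a = y ∨ a ∉ v) : Colm (a :: u) v 0 (E + 1) y := by
  refine ⟨Nat.zero_le _, ?_, ?_, Or.inl rfl⟩
  · have := h.len
    rw [List.length_cons]
    omega
  · intro j _ hj2 b hb
    rcases j with _ | i
    · rw [List.getElem?_cons_zero] at hb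
      rw [← Option.some_inj.1 hb]
      exact ha
    · rw [List.getElem?_cons_succ] at hb
      rcases hx with hx | hx
      · rw [hx]
        exact h.ltr i (by omega) (by omega) b hb
      · omega

private theorem Cover_all {a E : ℕ} {u v : List ℕ} {cs : List (ℕ × ℕ × ℕ)}
    (h : ∀ c ∈ cs, 1 ≤ c.1 ∧ Colm u v c.1 c.2.1 c.2.2)
    (h' : ∀ p ≤ u.length, p ≤ E ∨ ∃ c ∈ cs, c.1 ≤ p ∧ p ≤ c.2.1) :
    (∀ c ∈ cs.map Cover_sh, 1 ≤ c.1 ∧ Colm (a :: u) v c.1 c.2.1 c.2.2) ∧
    ∀ p ≤ u.length, p ≤ E ∨ ∃ c ∈ cs.map Cover_sh, c.1 ≤ p + 1 ∧ p + 1 ≤ c.2.1 := by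
  constructor
  · intro c hc
    obtain ⟨d, hd, rfl⟩ := List.mem_map.1 hc
    exact ⟨Nat.le_add_left _ _, Cover_shift (h d hd).1 (h d hd).2⟩
  · intro p hp
    rcases h' p hp with h1 | ⟨c, hc, h1, h2⟩
    · exact Or.inl h1
    · exact Or.inr ⟨Cover_sh c, List.mem_map_of_mem hc, Nat.succ_le_succ h1, Nat.succ_le_succ h2⟩

private theorem Cover_runs (b : ℕ) (l : List ℕ) : 1 ≤ runs (b :: l) := by
  induction l generalizing b with
  | nil => exact le_rfl
  | cons c l ih =>
    have h1 := ih c
    rw [runs]
    omega

theorem cover_aux (v : List ℕ) (u : List ℕ) : ∃ (E x : ℕ) (cs : List (ℕ × ℕ × ℕ)),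
    cs.length + 1 ≤ max 1 (runs (common u v)) ∧
    (∀ b l, common u v = b :: l → x = b) ∧
    Colm u v 0 E x ∧ (∀ c ∈ cs, 1 ≤ c.1 ∧ Colm u v c.1 c.2.1 c.2.2) ∧
    ∀ p ≤ u.length, p ≤ E ∨ ∃ c ∈ cs, c.1 ≤ p ∧ p ≤ c.2.1 := by
  induction u with
  | nil =>
    refine ⟨0, 0, [], le_max_left _ _, ?_, ⟨le_rfl, le_rfl, ?_, Or.inl rfl⟩, ?_, ?_⟩
    · intro b l h
      rw [common, List.filter_nil] at h
      exact absurd h (List.cons_ne_nil b l).symm
    · intro j _ hj
      omega
    · intro c hc
      exact absurd hc List.not_mem_nil
    · intro p hp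
      exact Or.inl hp
  | cons a u ih =>
    obtain ⟨E, x, cs, h1, h2, h3, h4, h5⟩ := ih
    obtain ⟨h6, h7⟩ := Cover_all (a := a) h4 h5
    by_cases ha : a ∈ v
    · have hc : common (a :: u) v = a :: common u v := by
        rw [common, List.filter_cons_of_pos (by simpa using ha), common]
      rcases hcu : common u v with _ | ⟨b, l⟩
      · -- no other common letter
        refine ⟨u.length + 1, a, [], ?_, ?_, ⟨Nat.zero_le _, by rw [List.length_cons], ?_, Or.inl rfl⟩,
          ?_, ?_⟩
        · exact le_max_left _ _
        · intro b l h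
          rw [hc] at h
          exact (List.cons.inj h).1
        · intro j _ _ b hb
          rcases j with _ | i
          · rw [List.getElem?_cons_zero] at hb
            exact Or.inl (Option.some_inj.1 hb).symm
          · rw [List.getElem?_cons_succ] at hb
            right
            intro hbv
            have h8 : b ∈ common u v := by
              rw [common, List.mem_filter]
              exact ⟨List.mem_of_getElem? hb, by simpa using hbv⟩
            rw [hcu] at h8
            exact absurd h8 List.not_mem_nil
        · intro c hc'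
          exact absurd hc' List.not_mem_nil
        · intro p hp
          rw [List.length_cons] at hp
          exact Or.inl hp
      · have hxb : x = b := h2 b l hcu
        have hr := Cover_runs b l
        rw [hcu] at h1
        rw [hc, hcu]
        by_cases hab : a = b
        · refine ⟨E + 1, x, cs.map Cover_sh, ?_, ?_, Cover_zero h3 (Or.inl rfl) (Or.inl ?_), h6, ?_⟩
          · rw [List.length_map, runs, if_pos hab]
            omega
          · intro b' l' h
            rw [hxb, ← hab]
            exact (List.cons.inj h).1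
          · rw [hxb, hab]
          · intro p hp
            rw [List.length_cons] at hp
            rcases p with _ | p
            · exact Or.inl (Nat.zero_le _)
            · rcases h7 p (by omega) with h8 | h8
              · exact Or.inl (by omega)
              · exact Or.inr h8
        · refine ⟨1, a, (1, E + 1, x) :: cs.map Cover_sh, ?_, ?_, ?_, ?_, ?_⟩
          · rw [List.length_cons, List.length_map, runs, if_neg hab]
            omega
          · intro b' l' h
            exact (List.cons.inj h).1
          · refine ⟨Nat.zero_le _, by rw [List.length_cons]; omega, ?_, Or.inl rfl⟩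
            intro j _ hj b' hb'
            rcases j with _ | i
            · rw [List.getElem?_cons_zero] at hb'
              exact Or.inl (Option.some_inj.1 hb').symm
            · omega
          · intro c hc'
            rcases List.mem_cons.1 hc' with rfl | hc'
            · refine ⟨le_rfl, ?_, ?_, ?_, ?_⟩
              · exact Nat.le_add_left _ _
              · have := h3.len
                rw [List.length_cons]
                exact Nat.succ_le_succ this
              · intro j hj1 hj2 b' hb'
                have hj1' : 1 ≤ j := hj1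
                have hj2' : j < E + 1 := hj2
                obtain ⟨i, rfl⟩ : ∃ i, j = i + 1 := ⟨j - 1, by omega⟩
                rw [List.getElem?_cons_succ] at hb'
                exact h3.ltr i (Nat.zero_le _) (by omega) b' hb'
              · right
                show (a :: u)[0]? ≠ some x
                rw [List.getElem?_cons_zero, hxb]
                intro h
                exact hab (Option.some_inj.1 h)
            · exact h6 c hc'
          · intro p hp
            rw [List.length_cons] at hp
            rcases p with _ | p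
            · exact Or.inl (Nat.zero_le _)
            · right
              rcases h7 p (by omega) with h8 | ⟨c, hc', h8⟩
              · exact ⟨_, List.mem_cons_self, Nat.le_add_left _ _, Nat.succ_le_succ h8⟩
              · exact ⟨c, List.mem_cons_of_mem _ hc', h8⟩
    · have hc : common (a :: u) v = common u v := by
        rw [common, List.filter_cons_of_neg (by simpa using ha), common]
      rw [hc]
      refine ⟨E + 1, x, cs.map Cover_sh, ?_, h2, Cover_zero h3 (Or.inl rfl) (Or.inr ha), h6, ?_⟩
      · rw [List.length_map]
        exact h1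
      · intro p hp
        rw [List.length_cons] at hp
        rcases p with _ | p
        · exact Or.inl (Nat.zero_le _)
        · rcases h7 p (by omega) with h8 | h8
          · exact Or.inl (by omega)
          · exact Or.inr h8

theorem cover (u v : List ℕ) : ∃ cs : List (ℕ × ℕ × ℕ),
    cs.length ≤ max 1 (runs (common u v)) ∧ (∀ c ∈ cs, Colm u v c.1 c.2.1 c.2.2) ∧
    ∀ p ≤ u.length, ∃ c ∈ cs, c.1 ≤ p ∧ p ≤ c.2.1 := by
  obtain ⟨E, x, cs, h1, -, h2, h3, h4⟩ := cover_aux v u
  refine ⟨(0, E, x) :: cs, by simpa using h1, ?_, ?_⟩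
  · intro c hc
    rcases List.mem_cons.1 hc with rfl | hc
    · exact h2
    · exact (h3 c hc).2
  · intro p hp
    rcases h4 p hp with h5 | ⟨c, hc, h5⟩
    · exact ⟨(0, E, x), by simp, Nat.zero_le _, h5⟩
    · exact ⟨c, List.mem_cons_of_mem _ hc, h5⟩

end Pool.Agent.SF
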