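import Pool.Agent.H.MP_53e59f_lc.SF.Det
import Pool.Agent.H.MP_53e59f_lc.SF.Cover

/-!
# The number of the sets of tokens

`cover` gives at most `max 1 r ≤ r + 1` columns `cs`. The set `Rs u v w` of a word `w` of length `k` over the letters
`< s` is determined by `gl s w` and the bits `bt` for the columns (`det`; every token is `≤ u.length`, so it is in a
column). `gl s w` is in `range (s + 1) ×ˢ range (k + 1) ×ˢ range (k + 1) ×ˢ range (s + 1) ×ˢ range (k + 1)` (letters `< s`
by `cut_mem`, `List.count_le_length`, `cut_len`), so the family has at most `(s + 1) ^ 2 * (k + 1) ^ 3 * 4 ^ cs.length`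
elements: it is the image of a finite set of codes (`(code, bits : Fin cs.length → Bool × Bool)`) under a map chosen
with `Classical.choice` / `Function.invFun`, or use `Set.ncard_le_ncard_of_injOn`-like lemmas.
-/

namespace Pool.Agent.SF

private theorem Count_last {s : ℕ} (w : List ℕ) (h : ∀ a ∈ w, a < s) :
    w.getLastD s < s + 1 := by
  rcases List.eq_nil_or_concat w with rfl | ⟨l, a, rfl⟩
  · rw [List.getLastD_nil]
    omega
  · rw [List.concat_eq_append] at h ⊢
    rw [List.getLastD_concat]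
    have := h a (by simp)
    omega

private theorem Count_gl {s k : ℕ} {w : List ℕ} (hw : w.length = k) (h : ∀ a ∈ w, a < s) :
    gl s w ∈ Finset.range (s + 1) ×ˢ Finset.range (k + 1) ×ˢ Finset.range (k + 1) ×ˢ
      Finset.range (s + 1) ×ˢ Finset.range (k + 1) := by
  have h1 := cut_len (w.getLastD s) w
  have h2 : ∀ a ∈ cut (w.getLastD s) w, a < s := fun a ha => h a (cut_mem ha)
  rw [gl, Finset.mem_product, Finset.mem_product, Finset.mem_product, Finset.mem_product,
    Finset.mem_range, Finset.mem_range, Finset.mem_range, Finset.mem_range, Finset.mem_range]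
  refine ⟨Count_last w h, ?_, ?_, Count_last _ h2, ?_⟩
  · have h3 : List.count (w.getLastD s) w ≤ w.length := List.count_le_length
    exact Nat.lt_succ_of_le (h3.trans hw.le)
  · exact Nat.lt_succ_of_le (h1.trans hw.le)
  · have h3 : List.count ((cut (w.getLastD s) w).getLastD s) (cut (w.getLastD s) w) ≤
      (cut (w.getLastD s) w).length := List.count_le_length
    exact Nat.lt_succ_of_le (h3.trans (h1.trans hw.le))

theorem count_Rs (s : ℕ) (u v : List ℕ) {r : ℕ} (h : runs (common u v) ≤ r) (k : ℕ) :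
    {S : Set ℕ | ∃ w : List ℕ, w.length = k ∧ (∀ a ∈ w, a < s) ∧ S = Rs u v w}.Finite ∧
      {S : Set ℕ | ∃ w : List ℕ, w.length = k ∧ (∀ a ∈ w, a < s) ∧ S = Rs u v w}.ncard ≤
        bnd s k r := by
  classical
  obtain ⟨cs, h1, h2, h3⟩ := cover u v
  obtain ⟨F, hF⟩ : ∃ F : Set (Set ℕ),
      F = {S : Set ℕ | ∃ w : List ℕ, w.length = k ∧ (∀ a ∈ w, a < s) ∧ S = Rs u v w} := ⟨_, rfl⟩
  rw [← hF]
  have hex : ∀ S ∈ F, ∃ w : List ℕ, w.length = k ∧ (∀ a ∈ w, a < s) ∧ S = Rs u v w := by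
    intro S hS
    rw [hF] at hS
    exact hS
  choose! g hg using hex
  obtain ⟨Φ, hΦ⟩ : ∃ Φ : Set ℕ → (ℕ × ℕ × ℕ × ℕ × ℕ) × (Fin cs.length → Bool × Bool),
      ∀ S, Φ S = (gl s (g S),
        fun i => bt (cs.get i).1 (cs.get i).2.1 (cs.get i).2.2 u v (g S)) := ⟨_, fun _ => rfl⟩
  obtain ⟨T, hT⟩ : ∃ T : Finset ((ℕ × ℕ × ℕ × ℕ × ℕ) × (Fin cs.length → Bool × Bool)),
      T = (Finset.range (s + 1) ×ˢ Finset.range (k + 1) ×ˢ Finset.range (k + 1) ×ˢ
        Finset.range (s + 1) ×ˢ Finset.range (k + 1)) ×ˢ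
          (Finset.univ : Finset (Fin cs.length → Bool × Bool)) := ⟨_, rfl⟩
  have hmap : ∀ S ∈ F, Φ S ∈ (T : Set _) := by
    intro S hS
    rw [Finset.mem_coe, hT, Finset.mem_product, hΦ]
    exact ⟨Count_gl (hg S hS).1 (hg S hS).2.1, Finset.mem_univ _⟩
  have hinj : Set.InjOn Φ F := by
    intro S₁ hS₁ S₂ hS₂ he
    rw [hΦ, hΦ, Prod.mk.injEq] at he
    obtain ⟨he1, he2⟩ := he
    have key : ∀ i : Fin cs.length,
        Rs u v (g S₁) ∩ Set.Icc (cs.get i).1 (cs.get i).2.1 =
          Rs u v (g S₂) ∩ Set.Icc (cs.get i).1 (cs.get i).2.1 := fun i =>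
      det (h2 _ (List.get_mem cs i)) ((hg S₁ hS₁).1.trans (hg S₂ hS₂).1.symm) he1
        (congrFun he2 i)
    have hp : ∀ p, p ≤ u.length → (p ∈ Rs u v (g S₁) ↔ p ∈ Rs u v (g S₂)) := by
      intro p hp
      obtain ⟨c, hcc, h4, h5⟩ := h3 p hp
      obtain ⟨i, hi⟩ := List.mem_iff_get.1 hcc
      have h6 := key i
      rw [hi] at h6
      constructor
      · intro h7
        have h8 : p ∈ Rs u v (g S₁) ∩ Set.Icc c.1 c.2.1 := ⟨h7, h4, h5⟩
        rw [h6] at h8
        exact h8.1
      · intro h7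
        have h8 : p ∈ Rs u v (g S₂) ∩ Set.Icc c.1 c.2.1 := ⟨h7, h4, h5⟩
        rw [← h6] at h8
        exact h8.1
    rw [(hg S₁ hS₁).2.2, (hg S₂ hS₂).2.2]
    ext p
    constructor
    · intro h4
      have h5 : Tk u v (g S₁) p := h4
      exact (hp p h5.1).1 h4
    · intro h4
      have h5 : Tk u v (g S₂) p := h4
      exact (hp p h5.1).2 h4
  refine ⟨?_, ?_⟩
  · refine Set.Finite.of_finite_image ?_ hinj
    refine T.finite_toSet.subset ?_
    rintro _ ⟨S, hS, rfl⟩
    exact hmap S hS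
  · refine (Set.ncard_le_ncard_of_injOn Φ hmap hinj T.finite_toSet).trans ?_
    rw [Set.ncard_coe_finset, hT, Finset.card_product, Finset.card_product, Finset.card_product,
      Finset.card_product, Finset.card_product, Finset.card_range, Finset.card_range,
      Finset.card_univ, Fintype.card_fun, Fintype.card_fin, Fintype.card_prod, Fintype.card_bool]
    have h5 : cs.length ≤ r + 1 := h1.trans (max_le (by omega) (by omega))
    have h6 : (2 * 2) ^ cs.length ≤ 4 ^ (r + 1) := Nat.pow_le_pow_right (by norm_num) h5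
    rw [bnd]
    calc (s + 1) * ((k + 1) * ((k + 1) * ((s + 1) * (k + 1)))) * (2 * 2) ^ cs.length
        ≤ (s + 1) * ((k + 1) * ((k + 1) * ((s + 1) * (k + 1)))) * 4 ^ (r + 1) :=
          Nat.mul_le_mul_left _ h6
      _ = (s + 1) ^ 2 * (k + 1) ^ 3 * 4 ^ (r + 1) := by ring

end Pool.Agent.SF
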