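import Mathlib

/-!
# The word without the letters `x` at its end

`cut x w` = `w` without the letters `x` at the end (`List.rdropWhile`).
`List.rdropWhile_eq_self_iff`, `List.rdropWhile_last_not`, `List.rdropWhile_concat`; or induction on `w` from the
right (`List.reverseRecOn`).
-/

namespace Pool.Agent.SF

/-- The word without the letters `x` at its end. -/
def cut (x : ℕ) (w : List ℕ) : List ℕ := w.rdropWhile fun a => decide (a = x)

private theorem Cut_pos {x a : ℕ} (l : List ℕ) (h : a = x) : cut x (l ++ [a]) = cut x l := by
  unfold cut
  rw [List.rdropWhile_concat, if_pos (decide_eq_true h)]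

private theorem Cut_neg {x a : ℕ} (l : List ℕ) (h : a ≠ x) : cut x (l ++ [a]) = l ++ [a] := by
  unfold cut
  rw [List.rdropWhile_concat, if_neg (by rw [decide_eq_true_eq]; exact h)]

theorem cut_eq (x : ℕ) (w : List ℕ) :
    w = cut x w ++ List.replicate (w.length - (cut x w).length) x := by
  have key : ∃ n, w = cut x w ++ List.replicate n x := by
    induction w using List.reverseRecOn with
    | nil => exact ⟨0, rfl⟩
    | append_singleton l a ih =>
      by_cases h : a = x
      · obtain ⟨n, hn⟩ := ih
        refine ⟨n + 1, ?_⟩
        rw [Cut_pos l h, List.replicate_succ', ← List.append_assoc, ← hn, h]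
      · exact ⟨0, by rw [Cut_neg l h, List.replicate_zero, List.append_nil]⟩
  obtain ⟨n, hn⟩ := key
  have h1 : w.length = (cut x w).length + n := by
    have h2 := congrArg List.length hn
    rw [List.length_append, List.length_replicate] at h2
    exact h2
  have h3 : w.length - (cut x w).length = n := by omega
  rw [h3]
  exact hn

theorem cut_len (x : ℕ) (w : List ℕ) : (cut x w).length ≤ w.length := by
  have h1 := congrArg List.length (cut_eq x w)
  rw [List.length_append] at h1
  omega

theorem cut_last (x : ℕ) (w : List ℕ) : cut x w = [] ∨ ∃ b z, cut x w = b ++ [z] ∧ z ≠ x := by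
  induction w using List.reverseRecOn with
  | nil => exact Or.inl rfl
  | append_singleton l a ih =>
    by_cases h : a = x
    · rw [Cut_pos l h]
      exact ih
    · exact Or.inr ⟨l, a, Cut_neg l h, h⟩

/-- Nothing is removed if the last letter is not `x`. -/
theorem cut_self {x z : ℕ} (b : List ℕ) (h : z ≠ x) : cut x (b ++ [z]) = b ++ [z] := by
  exact Cut_neg b h

theorem cut_mem {x a : ℕ} {w : List ℕ} (h : a ∈ cut x w) : a ∈ w := by
  rw [cut_eq x w]
  exact List.mem_append_left _ h

end Pool.Agent.SF
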