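import Pool.Agent.H.MP_53e59f_lc.SF.Defs

/-!
# Removal of multiple elements (induction on the list)
-/

namespace Pool.Agent.SF

private theorem Dd_cons (x : ℕ × List Bool) (l : List (ℕ × List Bool)) :
    dd (x :: l) = if x ∈ dd l then dd l else x :: dd l := rfl

theorem mem_dd {l : List (ℕ × List Bool)} {b : ℕ × List Bool} : b ∈ dd l ↔ b ∈ l := by
  induction l with
  | nil => exact Iff.rfl
  | cons x l ih =>
    rw [Dd_cons, List.mem_cons]
    split_ifs with h
    · rw [ih]
      constructor
      · exact fun h1 => Or.inr h1
      · rintro (rfl | h1)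
        · exact ih.mp h
        · exact h1
    · rw [List.mem_cons, ih]

theorem nodup_dd (l : List (ℕ × List Bool)) : (dd l).Nodup := by
  induction l with
  | nil => exact List.nodup_nil
  | cons x l ih =>
    rw [Dd_cons]
    split_ifs with h
    · exact ih
    · exact List.nodup_cons.mpr ⟨h, ih⟩

theorem len_dd (l : List (ℕ × List Bool)) : (dd l).length ≤ l.length := by
  induction l with
  | nil => exact le_refl _
  | cons x l ih =>
    rw [Dd_cons]
    split_ifs with h
    · exact ih.trans (Nat.le_succ _)
    · exact Nat.succ_le_succ ih

end Pool.Agent.SF
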