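import Pool.Agent.H.MP_53e59f_lc.SF.Stm

/-!
# Tokens and the algorithm
-/

namespace Pool.Agent.SF

open Pool.Agent.H.MP_5be563_lc.PT

/-- The word `u` without the letters which do not occur in `v`. -/
def common {α : Type} [DecidableEq α] (u v : List α) : List α := u.filter fun a => decide (a ∈ v)

/-! ### Tokens -/

/-- `p` is a token of `w`: `w` is an interleaving of the first `p` letters of `u` and of the first
`|w| - p` letters of `v`. -/
def Tk (u v w : List ℕ) (p : ℕ) : Prop :=
  p ≤ u.length ∧ p ≤ w.length ∧ w.length - p ≤ v.length ∧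
    Sh (u.take p) (v.take (w.length - p)) w

/-- The set of the tokens. -/
def Rs (u v w : List ℕ) : Set ℕ := {p | Tk u v w p}

/-- A column: the letters of `u` between `A` and `E` are equal to `x` or do not occur in `v`, and the
letter before `A` is not `x`. -/
structure Colm (u v : List ℕ) (A E x : ℕ) : Prop where
  le : A ≤ E
  len : E ≤ u.length
  ltr : ∀ j, A ≤ j → j < E → ∀ a, u[j]? = some a → a = x ∨ a ∉ v
  left : A = 0 ∨ u[A - 1]? ≠ some x

/-! ### The algorithm -/

/-- The next list of tokens (level `k`, letter `a`). -/
def stp (u v : List ℕ) (k : ℕ) (R : List Bool) (a : ℕ) : List Bool :=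
  (List.range (u.length + 1)).map fun p =>
    (R.getD p false && decide (v[k - p]? = some a)) ||
      (decide (1 ≤ p) && (R.getD (p - 1) false && decide (u[p - 1]? = some a)))

/-- The list of tokens of the empty word. -/
def ini (u : List ℕ) : List Bool := (List.range (u.length + 1)).map fun p => decide (p = 0)

/-- Removal of multiple elements. -/
def dd (l : List (ℕ × List Bool)) : List (ℕ × List Bool) :=
  l.foldr (fun b acc => if b ∈ acc then acc else b :: acc) []

/-- The transition function. -/
def look (tab : List (List ℕ)) (q a : ℕ) : ℕ := (tab.getD q []).getD a 0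

/-- The next level: states together with the lists of tokens (at most `C` of them). -/
def nxt (s : ℕ) (tab : List (List ℕ)) (u v : List ℕ) (C k : ℕ) (L : List (ℕ × List Bool)) :
    List (ℕ × List Bool) :=
  (dd (L.flatMap fun e => (List.range s).map fun a => (look tab e.1 a, stp u v k e.2 a))).take C

/-- A word of length `k` is accepted by the automaton and is not an interleaving. -/
def bad1 (acc : List Bool) (u v : List ℕ) (k : ℕ) (L : List (ℕ × List Bool)) : Bool :=
  L.any fun e => acc.getD e.1 false &&
    !(decide (k = u.length + v.length) && e.2.getD u.length false)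

/-- A word of length `k` is an interleaving and is not accepted by the automaton. -/
def bad2 (acc : List Bool) (u v : List ℕ) (k : ℕ) (L : List (ℕ × List Bool)) : Bool :=
  L.any fun e => !(acc.getD e.1 false) &&
    (decide (k = u.length + v.length) && e.2.getD u.length false)

/-- The state of the algorithm: level, list, two flags. -/
abbrev Stt := ℕ × List (ℕ × List Bool) × Bool × Bool

/-- One step of the algorithm. -/
def one (s : ℕ) (tab : List (List ℕ)) (acc : List Bool) (u v : List ℕ) (C : ℕ) (t : Stt) : Stt :=
  (t.1 + 1, nxt s tab u v C t.1 t.2.1, t.2.2.1 || bad1 acc u v t.1 t.2.1,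
    t.2.2.2 || bad2 acc u v t.1 t.2.1)

/-- The algorithm with the bound `C` for the lengths of the lists. -/
def alg (s : ℕ) (tab : List (List ℕ)) (st : ℕ) (acc : List Bool) (u v : List ℕ) (C : ℕ) :
    Bool × Bool :=
  ((one s tab acc u v C)^[u.length + v.length + tab.length + 1]
    (0, [(st, ini u)], false, false)).2.2

/-- The bound for the number of the sets of tokens at the level `k` for words over `s` letters and `r`
blocks. -/
def bnd (s k r : ℕ) : ℕ := (s + 1) ^ 2 * (k + 1) ^ 3 * 4 ^ (r + 1)

/-- The bound for the lengths of the lists, for at most `c * log N` blocks (`N` = the length of the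
input). -/
def cap (c : ℕ) (d : Dat) : ℕ :=
  d.2.1.length * ((d.1 + 1) ^ 2 *
    (d.2.2.2.2.1.length + d.2.2.2.2.2.length + d.2.1.length + 2) ^ 3 *
      (4 * (enc d).bits.length ^ (2 * c)))

/-- The algorithm: the first word is the one with fewer blocks. -/
def dec (c : ℕ) (d : Dat) : Bool × Bool :=
  if runs (common d.2.2.2.2.1 d.2.2.2.2.2) ≤ runs (common d.2.2.2.2.2 d.2.2.2.2.1) then
    alg d.1 d.2.1 d.2.2.1 d.2.2.2.1 d.2.2.2.2.1 d.2.2.2.2.2 (cap c d)
  else
    alg d.1 d.2.1 d.2.2.1 d.2.2.2.1 d.2.2.2.2.2 d.2.2.2.2.1 (cap c d)

end Pool.Agent.SF
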