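import Pool.Agent.H.MP_53e59f_lc.SF.Tok

/-!
# The letter of the column

The set of the tokens of `w ++ [x]` in the column is `nx` of the one of `w` (`Tk_snoc`; for `t = A` the second case
is impossible by `left`). `Rs_rep`: induction on `L` (`List.replicate_succ'`).
-/

namespace Pool.Agent.SF

variable {u v : List ℕ} {A E x : ℕ}

/-- The next set of tokens in the column, for the letter `x`. -/
def nx (u v : List ℕ) (A E x k : ℕ) (T : Set ℕ) : Set ℕ :=
  {t | A ≤ t ∧ t ≤ E ∧ ((t ∈ T ∧ v[k - t]? = some x) ∨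
    (A < t ∧ t - 1 ∈ T ∧ u[t - 1]? = some x))}

theorem Rs_nx (h : Colm u v A E x) (w : List ℕ) :
    Rs u v (w ++ [x]) ∩ Set.Icc A E = nx u v A E x w.length (Rs u v w ∩ Set.Icc A E) := by
  ext t
  simp only [Rs, nx, Set.mem_inter_iff, Set.mem_ofPred_eq, Set.mem_Icc, Tk_snoc]
  constructor
  · rintro ⟨h1, hA, hE⟩
    refine ⟨hA, hE, ?_⟩
    rcases h1 with ⟨h1, h2⟩ | ⟨h1, h2, h3⟩
    · exact Or.inl ⟨⟨h1, hA, hE⟩, h2⟩
    · refine Or.inr ?_
      have hlt : A < t := by
        rcases Nat.lt_or_ge A t with h4 | h4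
        · exact h4
        · exfalso
          have h5 : t = A := le_antisymm h4 hA
          rcases h.left with h6 | h6
          · omega
          · rw [h5] at h3
            exact h6 h3
      exact ⟨hlt, ⟨h2, by omega, by omega⟩, h3⟩
  · rintro ⟨hA, hE, h1⟩
    refine ⟨?_, hA, hE⟩
    rcases h1 with ⟨⟨h1, _⟩, h2⟩ | ⟨h1, ⟨h2, _⟩, h3⟩
    · exact Or.inl ⟨h1, h2⟩
    · exact Or.inr ⟨by omega, h2, h3⟩

/-- Letters `x` preserve the equality of the sets of tokens in the column. -/
theorem Rs_rep (h : Colm u v A E x) {w₁ w₂ : List ℕ} (hl : w₁.length = w₂.length)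
    (he : Rs u v w₁ ∩ Set.Icc A E = Rs u v w₂ ∩ Set.Icc A E) (L : ℕ) :
    Rs u v (w₁ ++ List.replicate L x) ∩ Set.Icc A E =
      Rs u v (w₂ ++ List.replicate L x) ∩ Set.Icc A E := by
  induction L with
  | zero => simpa using he
  | succ n ih =>
    rw [List.replicate_succ', ← List.append_assoc, ← List.append_assoc, Rs_nx h, Rs_nx h, ih]
    simp only [List.length_append, hl]

end Pool.Agent.SF
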