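import Pool.Agent.H.MP_53e59f_lc.SF.Uniq
import Pool.Agent.H.MP_53e59f_lc.SF.Nx
import Pool.Agent.H.MP_53e59f_lc.SF.Cut

/-!
# Codes of words

`gl s w` = the code of a word `w` over the letters `< s`: the last letter `y` (`s` for the empty word), the number of
the letters `y`, the length of `cut y w`, the last letter `z` of `cut y w`, the number of the letters `z` in it.
`bt A E x u v w` = the two bits of the column: `A` is a token of `cut x w`; there is a token in `(A, E]`.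

`det1` (the case of the word `a` with last letter different from `x`, or empty): `a₁ = b₁ ++ [z]`, `a₂ = b₂ ++ [z]`,
`col_uniq2`; `a₁ = a₂ = []` is trivial.
`det`: let `y` be the last letter. `x = y`: `det1` for `cut y w₁`, `cut y w₂`, then `cut_eq` and `Rs_rep`. `x ≠ y`:
`cut x w = w` (`cut_self`), `det1`. If one of the words is empty then both are (same length).
-/

namespace Pool.Agent.SF

variable {u v : List ℕ} {A E x : ℕ}

/-- The code of a word. -/
def gl (s : ℕ) (w : List ℕ) : ℕ × ℕ × ℕ × ℕ × ℕ :=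
  (w.getLastD s, w.count (w.getLastD s), (cut (w.getLastD s) w).length,
    (cut (w.getLastD s) w).getLastD s,
    (cut (w.getLastD s) w).count ((cut (w.getLastD s) w).getLastD s))

open Classical in
/-- The bits of a column. -/
noncomputable def bt (A E x : ℕ) (u v w : List ℕ) : Bool × Bool :=
  (decide (A ∈ Rs u v (cut x w)), decide (∃ p ∈ Rs u v (cut x w), A < p ∧ p ≤ E))

private theorem Det_last (b : List ℕ) (z s : ℕ) : (b ++ [z]).getLastD s = z := by
  simp [List.getLastD_eq_getLast?]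

theorem det1 (h : Colm u v A E x) {s : ℕ} {a₁ a₂ : List ℕ} (hl : a₁.length = a₂.length)
    (h1 : a₁ = [] ∨ ∃ b z, a₁ = b ++ [z] ∧ z ≠ x) (hlast : a₁.getLastD s = a₂.getLastD s)
    (hcount : a₁.count (a₁.getLastD s) = a₂.count (a₁.getLastD s))
    (hA : A ∈ Rs u v a₁ ↔ A ∈ Rs u v a₂)
    (hE : (∃ p ∈ Rs u v a₁, A < p ∧ p ≤ E) ↔ ∃ p ∈ Rs u v a₂, A < p ∧ p ≤ E) :
    Rs u v a₁ ∩ Set.Icc A E = Rs u v a₂ ∩ Set.Icc A E := by
  rcases h1 with rfl | ⟨b, z, rfl, hz⟩
  · have h2 : a₂ = [] := List.length_eq_zero_iff.1 (hl.symm.trans rfl)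
    rw [h2]
  · have h2 : a₂ ≠ [] := by
      rintro rfl
      simp at hl
    obtain ⟨b₂, z₂, rfl⟩ : ∃ b₂ z₂, a₂ = b₂ ++ [z₂] :=
      ⟨a₂.dropLast, a₂.getLast h2, (List.dropLast_append_getLast h2).symm⟩
    rw [Det_last, Det_last] at hlast
    subst hlast
    rw [Det_last] at hcount
    have hl' : b.length = b₂.length := by simpa using hl
    have hc' : b.count z = b₂.count z := by simpa using hcount
    ext t
    simp only [Set.mem_inter_iff, Set.mem_Icc]
    constructor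
    · rintro ⟨ht, ht1, ht2⟩
      refine ⟨?_, ht1, ht2⟩
      rcases Nat.eq_or_lt_of_le ht1 with rfl | hlt
      · exact hA.1 ht
      · obtain ⟨p, hp, hp1, hp2⟩ := hE.1 ⟨t, ht, hlt, ht2⟩
        rw [col_uniq2 h hz hl' hc' ht hp hlt ht2 hp1 hp2]
        exact hp
    · rintro ⟨ht, ht1, ht2⟩
      refine ⟨?_, ht1, ht2⟩
      rcases Nat.eq_or_lt_of_le ht1 with rfl | hlt
      · exact hA.2 ht
      · obtain ⟨p, hp, hp1, hp2⟩ := hE.2 ⟨t, ht, hlt, ht2⟩
        rw [← col_uniq2 h hz hl' hc' hp ht hp1 hp2 hlt ht2]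
        exact hp

theorem det (h : Colm u v A E x) {s : ℕ} {w₁ w₂ : List ℕ} (hl : w₁.length = w₂.length)
    (hg : gl s w₁ = gl s w₂) (hb : bt A E x u v w₁ = bt A E x u v w₂) :
    Rs u v w₁ ∩ Set.Icc A E = Rs u v w₂ ∩ Set.Icc A E := by
  unfold gl at hg
  unfold bt at hb
  rw [Prod.mk.injEq, Prod.mk.injEq, Prod.mk.injEq, Prod.mk.injEq] at hg
  rw [Prod.mk.injEq, decide_eq_decide, decide_eq_decide] at hb
  obtain ⟨e1, e2, e3, e4, e5⟩ := hg
  obtain ⟨hA, hE⟩ := hb
  rw [← e1] at e2 e3 e4 e5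
  rw [← e4] at e5
  by_cases hxy : x = w₁.getLastD s
  · rw [← hxy] at e3 e4 e5
    have h2 := det1 h (s := s) e3 (cut_last x w₁) e4 e5 hA hE
    have h3 := Rs_rep h e3 h2 (w₁.length - (cut x w₁).length)
    rw [← cut_eq x w₁] at h3
    rw [hl, e3, ← cut_eq x w₂] at h3
    exact h3
  · by_cases hw : w₁ = []
    · subst hw
      have h2 : w₂ = [] := List.length_eq_zero_iff.1 (hl.symm.trans rfl)
      rw [h2]
    · have hw2 : w₂ ≠ [] := by
        rintro rfl
        exact hw (List.length_eq_zero_iff.1 (hl.trans rfl))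
      obtain ⟨b₁, z₁, rfl⟩ : ∃ b z, w₁ = b ++ [z] :=
        ⟨w₁.dropLast, w₁.getLast hw, (List.dropLast_append_getLast hw).symm⟩
      obtain ⟨b₂, z₂, rfl⟩ : ∃ b z, w₂ = b ++ [z] :=
        ⟨w₂.dropLast, w₂.getLast hw2, (List.dropLast_append_getLast hw2).symm⟩
      have e1' := e1
      rw [Det_last, Det_last] at e1'
      subst e1'
      rw [Det_last] at hxy
      rw [cut_self b₁ (Ne.symm hxy), cut_self b₂ (Ne.symm hxy)] at hA hE
      exact det1 h hl (Or.inr ⟨b₁, z₁, rfl, Ne.symm hxy⟩) e1 e2 hA hE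

end Pool.Agent.SF
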