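import Pool.Agent.H.MP_53e59f_lc.SF.Dd

/-!
# The size of the state of the algorithm

Induction on `j` (`Function.iterate_succ_apply'`) for the stronger statement: the level is `j`, the list has at most
`C + 1` elements, and every element `(q, R)` has `sz q ≤ sz tab + sz st` and `R.length ≤ u.length + 1`
(`q = look tab q' a` is an entry of the table or `0`: `List.getD`, `sz_mem_lt`; elements of `dd`: `mem_dd`; `take`:
`List.mem_of_mem_take`, `List.length_take`). Then `sz_le_of_forall` (a list of booleans has `sz ≤ 4 * length + 1`: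
`sz_lbool_le` in PT/Main, `sz_bool_le`), `sz_pair`, `sz_nat`.
-/

namespace Pool.Agent.SF

open Pool.Agent.H.MP_5be563_lc.PT

theorem PC_getD {α : Type} (l : List α) (i : ℕ) (d : α) : l.getD i d ∈ l ∨ l.getD i d = d := by
  rcases lt_or_ge i l.length with h | h
  · left
    rw [List.getD_eq_getElem l d h]
    exact List.getElem_mem h
  · exact Or.inr (List.getD_eq_default l d h)

theorem PC_look (tab : List (List ℕ)) (q a : ℕ) : sz (look tab q a) ≤ sz tab + 1 := by
  unfold look
  rcases PC_getD (tab.getD q []) a 0 with h | h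
  · rcases PC_getD tab q [] with h1 | h1
    · have h2 := sz_mem_lt h
      have h3 := sz_mem_lt h1
      omega
    · rw [h1] at h
      exact absurd h List.not_mem_nil
  · rw [h, sz_nat]
    omega

theorem PC_bool (l : List Bool) : sz l ≤ 4 * l.length + 1 := by
  have h := sz_le_of_forall l 3 (fun b _ => sz_bool_le b)
  omega

theorem PC_inv (s : ℕ) (tab : List (List ℕ)) (st : ℕ) (acc : List Bool) (u v : List ℕ)
    (C j : ℕ) : ((one s tab acc u v C)^[j] (0, [(st, ini u)], false, false)).1 = j ∧
    ((one s tab acc u v C)^[j] (0, [(st, ini u)], false, false)).2.1.length ≤ C + 1 ∧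
    ∀ e ∈ ((one s tab acc u v C)^[j] (0, [(st, ini u)], false, false)).2.1,
      sz e.1 ≤ sz tab + sz st ∧ e.2.length = u.length + 1 := by
  induction j with
  | zero =>
    refine ⟨rfl, ?_, ?_⟩
    · show [(st, ini u)].length ≤ C + 1
      rw [List.length_singleton]
      omega
    · intro e he
      have he' : e = (st, ini u) := List.mem_singleton.1 he
      rw [he']
      refine ⟨?_, ?_⟩
      · show sz st ≤ sz tab + sz st
        omega
      · show (ini u).length = u.length + 1
        unfold ini
        rw [List.length_map, List.length_range]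
  | succ j ih =>
    rw [Function.iterate_succ_apply']
    obtain ⟨t, ht⟩ : ∃ t, t = (one s tab acc u v C)^[j] (0, [(st, ini u)], false, false) :=
      ⟨_, rfl⟩
    rw [← ht] at ih ⊢
    obtain ⟨h1, h2, h3⟩ := ih
    refine ⟨?_, ?_, ?_⟩
    · show t.1 + 1 = j + 1
      rw [h1]
    · show (nxt s tab u v C t.1 t.2.1).length ≤ C + 1
      unfold nxt
      rw [List.length_take]
      omega
    · intro e he
      have he' : e ∈ nxt s tab u v C t.1 t.2.1 := he
      unfold nxt at he'
      have h4 := mem_dd.1 (List.mem_of_mem_take he')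
      obtain ⟨e', he1, he2⟩ := List.mem_flatMap.1 h4
      obtain ⟨a, -, ha⟩ := List.mem_map.1 he2
      rw [← ha]
      refine ⟨?_, ?_⟩
      · show sz (look tab e'.1 a) ≤ sz tab + sz st
        have h5 := PC_look tab e'.1 a
        have h6 := sz_pos st
        omega
      · show (stp u v t.1 e'.2 a).length = u.length + 1
        unfold stp
        rw [List.length_map, List.length_range]

/-- the size of the state after `j` steps -/
theorem sz_iter (s : ℕ) (tab : List (List ℕ)) (st : ℕ) (acc : List Bool) (u v : List ℕ) (C j : ℕ) :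
    sz ((one s tab acc u v C)^[j] (0, [(st, ini u)], false, false)) ≤
      2 * j + (C + 1) * (sz tab + sz st + 4 * (u.length + 1) + 10) + 20 := by
  obtain ⟨h1, h2, h3⟩ := PC_inv s tab st acc u v C j
  obtain ⟨t, ht⟩ : ∃ t, t = (one s tab acc u v C)^[j] (0, [(st, ini u)], false, false) := ⟨_, rfl⟩
  rw [← ht] at h1 h2 h3 ⊢
  obtain ⟨k, L, b1, b2⟩ := t
  have h1' : k = j := h1
  have h2' : L.length ≤ C + 1 := h2
  have h4 : sz L ≤ L.length * (sz tab + sz st + 4 * (u.length + 1) + 2 + 1) + 1 := by
    refine sz_le_of_forall L _ fun e he => ?_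
    obtain ⟨h5, h6⟩ := h3 e he
    have h7 := PC_bool e.2
    rw [sz_prod]
    rw [h6] at h7
    omega
  have h5 : L.length * (sz tab + sz st + 4 * (u.length + 1) + 2 + 1) ≤
      (C + 1) * (sz tab + sz st + 4 * (u.length + 1) + 10) :=
    Nat.mul_le_mul h2' (by omega)
  have h6 := sz_bool_le b1
  have h7 := sz_bool_le b2
  rw [sz_pair, sz_pair, sz_pair, sz_nat]
  omega

end Pool.Agent.SF
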