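import Pool.Agent.H.MP_53e59f_lc.SF.PB
import Pool.Agent.H.MP_53e59f_lc.SF.PC

/-!
# Polynomial time

`poly_alg`: `Poly.iterate` (MP_5be563_lc/PT/Lists) with `f a = one ..`, `poly_one`, and the bound of `sz_iter` with
`j ≤ u.length + v.length + tab.length + 1`; `PBdd` of the bound: `PBdd.add`, `PBdd.mul`, `PBdd.comp`; a number which is
given by a `Poly` function `h` is at most its size (`sz_nat`: `sz (h a) = 2 * h a + 1`, `Poly.sz_le`); lengths of lists are
at most the sizes (`length_lt_sz`). `poly_dec`: `Poly.ite`, `poly_runs`, `poly_common`, `poly_alg`; `poly_cap` with `poly_pow` (the bits of the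
code of a value are `Poly`: see `Poly.decEq` in PT/Tree, `fun_prop`).
-/

namespace Pool.Agent.SF

open Pool.Agent.H.MP_5be563_lc.PT

variable {α : Type} [Enc α]

/-- a number given by a polynomial time function is polynomially bounded -/
theorem PTime_nat {g : α → ℕ} (hg : Poly g) : PBdd g :=
  hg.sz_le.mono fun a => by
    rw [sz_nat]
    omega

theorem PTime_ini {u : α → List ℕ} (hu : Poly u) : Poly (fun a => ini (u a)) := by
  unfold ini
  fun_prop

theorem poly_alg {s : α → ℕ} {tab : α → List (List ℕ)} {st : α → ℕ} {acc : α → List Bool}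
    {u v : α → List ℕ} {C : α → ℕ} (hs : Poly s) (htab : Poly tab) (hst : Poly st)
    (hacc : Poly acc) (hu : Poly u) (hv : Poly v) (hC : Poly C) :
    Poly (fun a => alg (s a) (tab a) (st a) (acc a) (u a) (v a) (C a)) := by
  have hf : Poly (fun p : α × Stt =>
      one (s p.1) (tab p.1) (acc p.1) (u p.1) (v p.1) (C p.1) p.2) :=
    poly_one (hs.comp Poly.fst) (htab.comp Poly.fst) (hacc.comp Poly.fst) (hu.comp Poly.fst)
      (hv.comp Poly.fst) (hC.comp Poly.fst) Poly.snd
  have hini := PTime_ini hu
  have hs0 : Poly (fun a => ((0, [(st a, ini (u a))], false, false) : Stt)) := by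
    fun_prop
  have hn : Poly (fun a => (u a).length + (v a).length + (tab a).length + 1) := by
    fun_prop
  have hul : Poly (fun a => (u a).length + 1) := by
    fun_prop
  have hC1 : Poly (fun a => C a + 1) := by
    fun_prop
  have hB : PBdd (fun a => 2 * ((u a).length + (v a).length + (tab a).length + 1) +
      (C a + 1) * (sz (tab a) + sz (st a) + 4 * ((u a).length + 1) + 10) + 20) :=
    (((PBdd.const 2).mul (PTime_nat hn)).add ((PTime_nat hC1).mul
      (((htab.sz_le.add hst.sz_le).add ((PBdd.const 4).mul (PTime_nat hul))).add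
        (PBdd.const 10)))).add (PBdd.const 20)
  have key := Poly.iterate (f := fun a t => one (s a) (tab a) (acc a) (u a) (v a) (C a) t)
    (s := fun a => ((0, [(st a, ini (u a))], false, false) : Stt))
    (n := fun a => (u a).length + (v a).length + (tab a).length + 1) hf hs0 hn hB (by
      intro a k hk
      have h1 := sz_iter (s a) (tab a) (st a) (acc a) (u a) (v a) (C a) k
      have h2 : 2 * k + (C a + 1) * (sz (tab a) + sz (st a) + 4 * ((u a).length + 1) + 10) + 20 ≤
          2 * ((u a).length + (v a).length + (tab a).length + 1) +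
          (C a + 1) * (sz (tab a) + sz (st a) + 4 * ((u a).length + 1) + 10) + 20 := by
        have h3 : k ≤ (u a).length + (v a).length + (tab a).length + 1 := hk
        omega
      exact h1.trans h2)
  exact Poly.comp Poly.snd (Poly.comp Poly.snd key)

theorem poly_pow {f : α → ℕ} (hf : Poly f) (k : ℕ) : Poly (fun a => f a ^ k) := by
  induction k with
  | zero =>
    simp only [pow_zero]
    fun_prop
  | succ k ih =>
    simp only [pow_succ]
    fun_prop

theorem poly_cap (c : ℕ) : Poly (cap c) := by
  have h1 : Poly (fun d : Dat => d.1 + 1) := by fun_prop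
  have h2 : Poly (fun d : Dat =>
      d.2.2.2.2.1.length + d.2.2.2.2.2.length + d.2.1.length + 2) := by
    fun_prop
  have h3 : Poly (fun d : Dat => (enc d).bits.length) :=
    Poly.length (Poly.bits (Poly.encD (by fun_prop)))
  have h4 : Poly (fun d : Dat => d.2.1.length) := by fun_prop
  have h5 : Poly (fun _ : Dat => 4) := by fun_prop
  exact Poly.mul h4 (Poly.mul (Poly.mul (poly_pow h1 2) (poly_pow h2 3))
    (Poly.mul h5 (poly_pow h3 (2 * c))))

theorem poly_dec (c : ℕ) : Poly (dec c) := by
  have h1 : Poly (fun d : Dat => d.1) := by fun_prop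
  have h2 : Poly (fun d : Dat => d.2.1) := by fun_prop
  have h3 : Poly (fun d : Dat => d.2.2.1) := by fun_prop
  have h4 : Poly (fun d : Dat => d.2.2.2.1) := by fun_prop
  have h5 : Poly (fun d : Dat => d.2.2.2.2.1) := by fun_prop
  have h6 : Poly (fun d : Dat => d.2.2.2.2.2) := by fun_prop
  have hc : Poly (fun d : Dat => decide (runs (common d.2.2.2.2.1 d.2.2.2.2.2) ≤
      runs (common d.2.2.2.2.2 d.2.2.2.2.1))) :=
    Poly.natle (poly_runs (poly_common h5 h6)) (poly_runs (poly_common h6 h5))
  exact Poly.ite (c := fun d : Dat => runs (common d.2.2.2.2.1 d.2.2.2.2.2) ≤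
      runs (common d.2.2.2.2.2 d.2.2.2.2.1)) hc
    (poly_alg h1 h2 h3 h4 h5 h6 (poly_cap c)) (poly_alg h1 h2 h3 h4 h6 h5 (poly_cap c))

end Pool.Agent.SF
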