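import Pool.Agent.H.MP_53e59f_lc.SF.Corr
import Pool.Agent.H.MP_53e59f_lc.SF.PTime

/-!
# The theorem
-/

namespace Pool.Agent.SF

open Pool.Agent.H.MP_5be563_lc.PT

/-- The code of an instance determines the instance. -/
theorem encode_injective : Function.Injective Inst.encode := by
  classical
  intro x y h
  have h1 : x.dat = y.dat := Enc.inj (D.bits_injective h)
  obtain ⟨s, m, M, u, v⟩ := x
  obtain ⟨s', m', M', u', v'⟩ := y
  have hs : s = s' := congrArg Prod.fst h1
  subst hs
  have hm : m = m' := by
    have h2 := congrArg (fun d : Dat => d.2.1.length) h1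
    simpa [Inst.dat] using h2
  subst hm
  have hstep : M.step = M'.step := by
    funext q a
    have h2 := look_dat ⟨s, m, M, u, v⟩ q a
    have h3 := look_dat ⟨s, m, M', u', v'⟩ q a
    rw [h1] at h2
    exact Fin.val_injective (h2.symm.trans h3)
  have hstart : M.start = M'.start :=
    Fin.val_injective (congrArg (fun d : Dat => d.2.2.1) h1)
  have hacc : M.accept = M'.accept := by
    have h2 : (List.finRange m).map (fun q => decide (q ∈ M.accept)) =
        (List.finRange m).map (fun q => decide (q ∈ M'.accept)) :=
      congrArg (fun d : Dat => d.2.2.2.1) h1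
    ext q
    have h3 := List.map_inj_left.1 h2 q (List.mem_finRange q)
    exact decide_eq_decide.1 h3
  have hM : M = M' := by
    obtain ⟨a, b, c⟩ := M
    obtain ⟨a', b', c'⟩ := M'
    simp only at hstep hstart hacc
    rw [hstep, hstart, hacc]
  have hu : u = u' := (List.map_injective_iff.2 Fin.val_injective)
    (congrArg (fun d : Dat => d.2.2.2.2.1) h1)
  have hv : v = v' := (List.map_injective_iff.2 Fin.val_injective)
    (congrArg (fun d : Dat => d.2.2.2.2.2) h1)
  rw [hM, hu, hv]

theorem final (c : ℕ) :
    ∃ f g : Inst → Bool,
      Nonempty (Turing.TM2ComputableInPolyTime Inst.encode Computability.encodeBool f) ∧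
      Nonempty (Turing.TM2ComputableInPolyTime Inst.encode Computability.encodeBool g) ∧
      ∀ x : Inst, runs (common x.u x.v) ≤ c * Nat.log 2 x.encode.length ∨
          runs (common x.v x.u) ≤ c * Nat.log 2 x.encode.length →
        (f x = true ↔ x.M.accepts ≠ {w | Sh x.u x.v w}) ∧
        (g x = true ↔ ¬ x.M.accepts ≤ {w | Sh x.u x.v w}) := by
  have hP : Poly (fun d : Dat => (dec c d).1 || (dec c d).2) := by
    have := poly_dec c
    fun_prop
  have hQ : Poly (fun d : Dat => (dec c d).1) := by
    have := poly_dec c
    fun_prop
  obtain ⟨M⟩ := hP.tm2_bool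
  obtain ⟨N⟩ := hQ.tm2_bool
  refine ⟨fun x => (dec c x.dat).1 || (dec c x.dat).2, fun x => (dec c x.dat).1, ⟨?_⟩, ⟨?_⟩, ?_⟩
  · exact
      { tm := M.tm
        inputAlphabet := M.inputAlphabet
        outputAlphabet := M.outputAlphabet
        time := M.time
        outputsFun := fun x => M.outputsFun x.dat }
  · exact
      { tm := N.tm
        inputAlphabet := N.inputAlphabet
        outputAlphabet := N.outputAlphabet
        time := N.time
        outputsFun := fun x => N.outputsFun x.dat }
  · intro x hx
    obtain ⟨h1, h2⟩ := dec_iff x hx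
    constructor
    · rw [Bool.or_eq_true, h1, h2]
      constructor
      · rintro (⟨w, hw1, hw2⟩ | ⟨w, hw1, hw2⟩) he
        · exact hw2 (he ▸ hw1 : w ∈ ({w | Sh x.u x.v w} : Set _))
        · exact hw1 (he ▸ (show w ∈ ({w | Sh x.u x.v w} : Set _) from hw2))
      · intro hne
        by_contra hcon
        push Not at hcon
        apply hne
        ext w
        constructor
        · intro hw
          exact hcon.1 w hw
        · intro hw
          by_contra h3
          exact hcon.2 w h3 hw
    · rw [h1]
      constructor
      · rintro ⟨w, hw1, hw2⟩ hle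
        exact hw2 (hle hw1)
      · intro hne
        by_contra hcon
        push Not at hcon
        exact hne fun w hw => hcon w hw

end Pool.Agent.SF
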