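import Pool.Agent.H.MP_53e59f_lc.SF.Inv

/-!
# The iteration

`good_iter`: induction on `j` (`Function.iterate_succ_apply'`, `good_zero`, `good_nxt`; `bnd_mono`). `alg_iff`: the flags after `j` steps are the disjunctions of `bad1`, `bad2` over the levels `< j`
(induction); by `Good` and `RB_getD` (with `p = u.length`), `Tk_full`: `bad1` at the level `k` iff there is a word
`w` of length `k` over the letters `< s` with `acc.getD (ev tab st w) false = true` and not `Sh u v w`
(`Sh u v w` iff `w.length = u.length + v.length` and `Tk u v w u.length`).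
-/

namespace Pool.Agent.SF

variable {s : ℕ} {tab : List (List ℕ)} {st : ℕ} {acc : List Bool} {u v : List ℕ} {m r C : ℕ}

theorem bnd_mono {s k k' r : ℕ} (h : k ≤ k') : bnd s k r ≤ bnd s k' r := by
  unfold bnd
  gcongr

theorem good_iter (hr : runs (common u v) ≤ r)
    (hm : ∀ w : List ℕ, (∀ a ∈ w, a < s) → ev tab st w < m) {n : ℕ}
    (hC : m * bnd s (n + 1) r ≤ C) {j : ℕ} (hj : j ≤ n + 1) :
    ((one s tab acc u v C)^[j] (0, [(st, ini u)], false, false)).1 = j ∧
      Good s tab st u v j ((one s tab acc u v C)^[j] (0, [(st, ini u)], false, false)).2.1 := by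
  induction j with
  | zero => exact ⟨rfl, good_zero⟩
  | succ j ih =>
    obtain ⟨h1, h2⟩ := ih (by omega)
    rw [Function.iterate_succ_apply']
    refine ⟨?_, ?_⟩
    · show ((one s tab acc u v C)^[j] (0, [(st, ini u)], false, false)).1 + 1 = j + 1
      rw [h1]
    · show Good s tab st u v (j + 1)
        (nxt s tab u v C ((one s tab acc u v C)^[j] (0, [(st, ini u)], false, false)).1
          ((one s tab acc u v C)^[j] (0, [(st, ini u)], false, false)).2.1)
      rw [h1]
      exact good_nxt hr hm ((Nat.mul_le_mul_left m (bnd_mono hj)).trans hC) h2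

theorem Itr_full {w : List ℕ} {k : ℕ} (hw : w.length = k) :
    (decide (k = u.length + v.length) && (RB u v w).getD u.length false) = true ↔ Sh u v w := by
  rw [Bool.and_eq_true, decide_eq_true_iff, RB_getD u v w le_rfl, ← hw]
  exact Tk_full u v w

theorem Itr_bad1 {k : ℕ} {L : List (ℕ × List Bool)} (h : Good s tab st u v k L) :
    bad1 acc u v k L = true ↔ ∃ w : List ℕ, w.length = k ∧ (∀ a ∈ w, a < s) ∧
      acc.getD (ev tab st w) false = true ∧ ¬ Sh u v w := by
  unfold bad1
  rw [List.any_eq_true]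
  constructor
  · rintro ⟨e, he, h1⟩
    obtain ⟨w, hw, hs, rfl⟩ := (h.mem e).1 he
    rw [Bool.and_eq_true, Bool.not_eq_true'] at h1
    refine ⟨w, hw, hs, h1.1, fun hsh => ?_⟩
    have h3 := (Itr_full hw).2 hsh
    have h4 := h1.2
    rw [h3] at h4
    exact Bool.noConfusion h4
  · rintro ⟨w, hw, hs, h1, h2⟩
    refine ⟨(ev tab st w, RB u v w), (h.mem _).2 ⟨w, hw, hs, rfl⟩, ?_⟩
    rw [Bool.and_eq_true, Bool.not_eq_true']
    refine ⟨h1, ?_⟩
    rw [← Bool.not_eq_true]
    exact fun h3 => h2 ((Itr_full hw).1 h3)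

theorem Itr_bad2 {k : ℕ} {L : List (ℕ × List Bool)} (h : Good s tab st u v k L) :
    bad2 acc u v k L = true ↔ ∃ w : List ℕ, w.length = k ∧ (∀ a ∈ w, a < s) ∧
      acc.getD (ev tab st w) false = false ∧ Sh u v w := by
  unfold bad2
  rw [List.any_eq_true]
  constructor
  · rintro ⟨e, he, h1⟩
    obtain ⟨w, hw, hs, rfl⟩ := (h.mem e).1 he
    rw [Bool.and_eq_true, Bool.not_eq_true'] at h1
    exact ⟨w, hw, hs, h1.1, (Itr_full hw).1 h1.2⟩
  · rintro ⟨w, hw, hs, h1, h2⟩
    refine ⟨(ev tab st w, RB u v w), (h.mem _).2 ⟨w, hw, hs, rfl⟩, ?_⟩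
    rw [Bool.and_eq_true, Bool.not_eq_true']
    exact ⟨h1, (Itr_full hw).2 h2⟩

theorem Itr_flags (j : ℕ) :
    (((one s tab acc u v C)^[j] (0, [(st, ini u)], false, false)).2.2.1 = true ↔
      ∃ k < j, bad1 acc u v ((one s tab acc u v C)^[k] (0, [(st, ini u)], false, false)).1
        ((one s tab acc u v C)^[k] (0, [(st, ini u)], false, false)).2.1 = true) ∧
    (((one s tab acc u v C)^[j] (0, [(st, ini u)], false, false)).2.2.2 = true ↔
      ∃ k < j, bad2 acc u v ((one s tab acc u v C)^[k] (0, [(st, ini u)], false, false)).1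
        ((one s tab acc u v C)^[k] (0, [(st, ini u)], false, false)).2.1 = true) := by
  induction j with
  | zero =>
    refine ⟨⟨fun h => ?_, fun h => ?_⟩, ⟨fun h => ?_, fun h => ?_⟩⟩
    · exact Bool.noConfusion h
    · obtain ⟨k, hk, -⟩ := h
      omega
    · exact Bool.noConfusion h
    · obtain ⟨k, hk, -⟩ := h
      omega
  | succ j ih =>
    obtain ⟨ih1, ih2⟩ := ih
    refine ⟨?_, ?_⟩
    · have e : ((one s tab acc u v C)^[j + 1] (0, [(st, ini u)], false, false)).2.2.1 =
          (((one s tab acc u v C)^[j] (0, [(st, ini u)], false, false)).2.2.1 ||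
            bad1 acc u v ((one s tab acc u v C)^[j] (0, [(st, ini u)], false, false)).1
              ((one s tab acc u v C)^[j] (0, [(st, ini u)], false, false)).2.1) := by
        rw [Function.iterate_succ_apply']
        rfl
      rw [e, Bool.or_eq_true, ih1]
      constructor
      · rintro (⟨k, hk, h⟩ | h)
        · exact ⟨k, by omega, h⟩
        · exact ⟨j, by omega, h⟩
      · rintro ⟨k, hk, h⟩
        rcases Nat.lt_succ_iff_lt_or_eq.1 hk with h1 | h1
        · exact Or.inl ⟨k, h1, h⟩
        · subst h1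
          exact Or.inr h
    · have e : ((one s tab acc u v C)^[j + 1] (0, [(st, ini u)], false, false)).2.2.2 =
          (((one s tab acc u v C)^[j] (0, [(st, ini u)], false, false)).2.2.2 ||
            bad2 acc u v ((one s tab acc u v C)^[j] (0, [(st, ini u)], false, false)).1
              ((one s tab acc u v C)^[j] (0, [(st, ini u)], false, false)).2.1) := by
        rw [Function.iterate_succ_apply']
        rfl
      rw [e, Bool.or_eq_true, ih2]
      constructor
      · rintro (⟨k, hk, h⟩ | h)
        · exact ⟨k, by omega, h⟩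
        · exact ⟨j, by omega, h⟩
      · rintro ⟨k, hk, h⟩
        rcases Nat.lt_succ_iff_lt_or_eq.1 hk with h1 | h1
        · exact Or.inl ⟨k, h1, h⟩
        · subst h1
          exact Or.inr h

theorem alg_iff (hr : runs (common u v) ≤ r)
    (hm : ∀ w : List ℕ, (∀ a ∈ w, a < s) → ev tab st w < m)
    (hC : m * bnd s (u.length + v.length + tab.length + 1) r ≤ C) :
    ((alg s tab st acc u v C).1 = true ↔
      ∃ w : List ℕ, w.length ≤ u.length + v.length + tab.length ∧ (∀ a ∈ w, a < s) ∧
        acc.getD (ev tab st w) false = true ∧ ¬ Sh u v w) ∧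
    ((alg s tab st acc u v C).2 = true ↔
      ∃ w : List ℕ, w.length ≤ u.length + v.length + tab.length ∧ (∀ a ∈ w, a < s) ∧
        acc.getD (ev tab st w) false = false ∧ Sh u v w) := by
  have hg : ∀ k, k < u.length + v.length + tab.length + 1 →
      ((one s tab acc u v C)^[k] (0, [(st, ini u)], false, false)).1 = k ∧
        Good s tab st u v k ((one s tab acc u v C)^[k] (0, [(st, ini u)], false, false)).2.1 :=
    fun k hk => good_iter hr hm hC (by omega)
  have hf := Itr_flags (s := s) (tab := tab) (st := st) (acc := acc) (u := u) (v := v) (C := C)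
    (u.length + v.length + tab.length + 1)
  refine ⟨?_, ?_⟩
  · show ((one s tab acc u v C)^[u.length + v.length + tab.length + 1]
      (0, [(st, ini u)], false, false)).2.2.1 = true ↔ _
    rw [hf.1]
    constructor
    · rintro ⟨k, hk, h⟩
      rw [(hg k hk).1, Itr_bad1 (hg k hk).2] at h
      obtain ⟨w, h1, h2⟩ := h
      exact ⟨w, by omega, h2⟩
    · rintro ⟨w, h1, h2⟩
      refine ⟨w.length, by omega, ?_⟩
      rw [(hg w.length (by omega)).1, Itr_bad1 (hg w.length (by omega)).2]
      exact ⟨w, rfl, h2⟩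
  · show ((one s tab acc u v C)^[u.length + v.length + tab.length + 1]
      (0, [(st, ini u)], false, false)).2.2.2 = true ↔ _
    rw [hf.2]
    constructor
    · rintro ⟨k, hk, h⟩
      rw [(hg k hk).1, Itr_bad2 (hg k hk).2] at h
      obtain ⟨w, h1, h2⟩ := h
      exact ⟨w, by omega, h2⟩
    · rintro ⟨w, h1, h2⟩
      refine ⟨w.length, by omega, ?_⟩
      rw [(hg w.length (by omega)).1, Itr_bad2 (hg w.length (by omega)).2]
      exact ⟨w, rfl, h2⟩

end Pool.Agent.SF
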