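import Pool.Agent.H.MP_53e59f_lc.SF.Rb

/-!
# The data of an instance

`ev_dat`: `ev` of the table of an instance is the evaluation of the automaton (words over `Fin s` mapped to
numbers); every word of numbers `< s` is the image of a word over `Fin s`. `runs_map`, `common_map`: images under
injective maps. (`List.getD`, `List.finRange`, `DFA.eval`, `DFA.evalFrom`; `ev_dat` by generalizing the start
state and induction on `w`.)
-/

namespace Pool.Agent.SF

/-- The state after a word. -/
def ev (tab : List (List ℕ)) (st : ℕ) (w : List ℕ) : ℕ := w.foldl (look tab) st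

theorem runs_map {α β : Type} [DecidableEq α] [DecidableEq β] {f : α → β}
    (hf : Function.Injective f) (l : List α) : runs (l.map f) = runs l := by
  induction l with
  | nil => rfl
  | cons a l ih =>
    cases l with
    | nil => rfl
    | cons b l =>
      simp only [List.map_cons] at ih
      simp only [List.map_cons, runs, ih, hf.eq_iff]

theorem common_map {α β : Type} [DecidableEq α] [DecidableEq β] {f : α → β}
    (hf : Function.Injective f) (u v : List α) :
    common (u.map f) (v.map f) = (common u v).map f := by
  unfold common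
  rw [List.filter_map]
  congr 1
  refine List.filter_congr fun a _ => ?_
  simp only [Function.comp_apply, List.mem_map_of_injective hf]

theorem look_dat (x : Inst) (q : Fin x.m) (a : Fin x.s) :
    look x.dat.2.1 q a = (x.M.step q a : ℕ) := by
  unfold look Inst.dat
  simp [List.getD_eq_getElem?_getD]

theorem ev_dat (x : Inst) (w : List (Fin x.s)) :
    ev x.dat.2.1 x.dat.2.2.1 (w.map Fin.val) = (x.M.eval w : ℕ) := by
  have key : ∀ (w : List (Fin x.s)) (q : Fin x.m),
      ev x.dat.2.1 (q : ℕ) (w.map Fin.val) = (x.M.evalFrom q w : ℕ) := by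
    intro w
    induction w with
    | nil => intro q; rfl
    | cons a w ih =>
      intro q
      have h1 : ev x.dat.2.1 (q : ℕ) ((a :: w).map Fin.val) =
          ev x.dat.2.1 (look x.dat.2.1 q a) (w.map Fin.val) := rfl
      rw [h1, look_dat, ih]
      rfl
  exact key w x.M.start

theorem acc_dat (x : Inst) (w : List (Fin x.s)) :
    x.dat.2.2.2.1.getD (ev x.dat.2.1 x.dat.2.2.1 (w.map Fin.val)) false = true ↔
      w ∈ x.M.accepts := by
  rw [ev_dat, DFA.mem_accepts]
  have h1 : x.dat.2.2.2.1 = (List.finRange x.m).map
      (fun q => @decide (q ∈ x.M.accept) (Classical.propDecidable _)) := rfl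
  rw [h1]
  simp [List.getD_eq_getElem?_getD]

theorem ex_map {s : ℕ} {w : List ℕ} (h : ∀ a ∈ w, a < s) :
    ∃ w' : List (Fin s), w = w'.map Fin.val := by
  induction w with
  | nil => exact ⟨[], rfl⟩
  | cons a w ih =>
    obtain ⟨w', hw'⟩ := ih fun b hb => h b (List.mem_cons_of_mem a hb)
    have ha : a < s := h a List.mem_cons_self
    exact ⟨⟨a, ha⟩ :: w', by rw [List.map_cons, ← hw']⟩

end Pool.Agent.SF
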