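import Pool.Agent.H.MP_53e59f_lc.SF.Dd

/-!
# Polynomial time: blocks, common letters, removal of multiple elements

`runs_foldr`: `runs` is a fold (first prove what the second component of the fold is). `poly_runs`: `Poly.foldr`
(MP_5be563_lc/PT/Lists) with a bound for the sizes of the pairs. `poly_dd`: `Poly.foldr`: `dd l'` for a suffix `l'` of
`l` is a sublist of `l'`, so `sz (dd l') ≤ sz l' ≤ sz l` (`sz_sublist_le`).
-/

namespace Pool.Agent.SF

open Pool.Agent.H.MP_5be563_lc.PT

variable {α : Type} [Enc α]

private theorem PA_snd (l : List ℕ) :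
    (l.foldr (fun a (t : ℕ × Option ℕ) => if t.2 = some a then t else (t.1 + 1, some a))
      (0, none)).2 = l.head? := by
  cases l with
  | nil => rfl
  | cons a l =>
    rw [List.foldr_cons, List.head?_cons]
    split_ifs with h
    · exact h
    · rfl

private theorem PA_fst (l : List ℕ) :
    (l.foldr (fun a (t : ℕ × Option ℕ) => if t.2 = some a then t else (t.1 + 1, some a))
      (0, none)).1 ≤ l.length := by
  induction l with
  | nil => exact le_rfl
  | cons a l ih =>
    rw [List.foldr_cons, List.length_cons]
    split_ifs with h
    · omega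
    · exact Nat.succ_le_succ ih

theorem runs_foldr (l : List ℕ) : runs l =
    (l.foldr (fun a (t : ℕ × Option ℕ) => if t.2 = some a then t else (t.1 + 1, some a))
      (0, none)).1 := by
  induction l with
  | nil => rfl
  | cons a l ih =>
    have h2 := PA_snd l
    rw [List.foldr_cons]
    cases l with
    | nil => rfl
    | cons b l =>
      rw [List.head?_cons] at h2
      have h3 : runs (a :: b :: l) = (if a = b then 0 else 1) + runs (b :: l) := rfl
      rw [h3, ih, h2]
      by_cases hab : a = b
      · rw [if_pos hab, if_pos (by rw [hab]), Nat.zero_add]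
      · rw [if_neg hab, if_neg (fun h => hab (Option.some.inj h).symm), Nat.add_comm]

theorem poly_runs {f : α → List ℕ} (hf : Poly f) : Poly (fun a => runs (f a)) := by
  have key := Poly.foldr (f := fun p : α × (ℕ × Option ℕ) × ℕ =>
      if p.2.1.2 = some p.2.2 then p.2.1 else (p.2.1.1 + 1, some p.2.2)) (l := f)
    (s0 := fun _ => ((0, none) : ℕ × Option ℕ)) (B := fun a => 3 * sz (f a) + 4)
    (by fun_prop) hf (by fun_prop) (((PBdd.const 3).mul hf.sz_le).add (PBdd.const 4)) (by
      intro a l₁ l₂ h
      simp only
      have h1 := PA_snd l₂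
      have h2 := PA_fst l₂
      have h3 : sz l₂ ≤ sz (f a) := by
        rw [h]
        exact sz_sublist_le (List.sublist_append_right _ _)
      have h4 := length_lt_sz l₂
      have h5 : sz l₂.head? ≤ sz l₂ + 2 := by
        cases l₂ with
        | nil => simp
        | cons b l => simp; omega
      rw [sz_prod, h1, sz_nat]
      omega)
  have k2 : Poly (fun a => ((f a).foldr (fun b (t : ℕ × Option ℕ) =>
      if t.2 = some b then t else (t.1 + 1, some b)) (0, none)).1) :=
    Poly.comp (f := fun p : ℕ × Option ℕ => p.1) Poly.fst key
  refine (show (fun a => runs (f a)) = _ from ?_) ▸ k2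
  funext a
  exact runs_foldr (f a)

theorem poly_common {f g : α → List ℕ} (hf : Poly f) (hg : Poly g) :
    Poly (fun a => common (f a) (g a)) := by
  unfold common
  fun_prop

private theorem PA_sub (l : List (ℕ × List Bool)) : (dd l).Sublist l := by
  induction l with
  | nil => exact List.Sublist.refl _
  | cons a l ih =>
    have h : dd (a :: l) = if a ∈ dd l then dd l else a :: dd l := rfl
    rw [h]
    split_ifs with h
    · exact ih.cons a
    · exact ih.cons_cons a

theorem poly_dd {f : α → List (ℕ × List Bool)} (hf : Poly f) : Poly (fun a => dd (f a)) := by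
  have key := Poly.foldr (f := fun p : α × List (ℕ × List Bool) × (ℕ × List Bool) =>
      if p.2.2 ∈ p.2.1 then p.2.1 else p.2.2 :: p.2.1) (l := f)
    (s0 := fun _ => []) (B := fun a => sz (f a))
    (by fun_prop) hf (by fun_prop) hf.sz_le (by
      intro a l₁ l₂ h
      have h1 : (dd l₂).Sublist (f a) := by
        rw [h]
        exact (PA_sub l₂).trans (List.sublist_append_right _ _)
      exact sz_sublist_le h1)
  exact key

end Pool.Agent.SF
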