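import Pool.Agent.H.MP_53e59f_lc.SF.PA

/-!
# Polynomial time: one step

`poly_stp`, `poly_one`: `fun_prop` after unfolding (`stp`, `one`, `nxt`, `bad1`, `bad2`, `look`), in several steps with
`Poly.comp` and tuples (see MP_5be563_lc/PT and its uses, e.g. MP_ebc13b_lc/h61/PolyA). `Poly.flatMap`, `Poly.map`,
`Poly.any` need the function of the pair (parameter, element). `poly_dd` for `dd`.
-/

namespace Pool.Agent.SF

open Pool.Agent.H.MP_5be563_lc.PT

variable {α : Type} [Enc α]

theorem poly_stp {u v : α → List ℕ} {k : α → ℕ} {R : α → List Bool} {c : α → ℕ} (hu : Poly u)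
    (hv : Poly v) (hk : Poly k) (hR : Poly R) (hc : Poly c) :
    Poly (fun a => stp (u a) (v a) (k a) (R a) (c a)) := by
  have hp : Poly (fun q : α × ℕ => q.2) := Poly.snd
  have hq : Poly (fun q : α × ℕ => q.1) := Poly.fst
  have hu' : Poly (fun q : α × ℕ => u q.1) := hu.comp hq
  have hv' : Poly (fun q : α × ℕ => v q.1) := hv.comp hq
  have hk' : Poly (fun q : α × ℕ => k q.1) := hk.comp hq
  have hR' : Poly (fun q : α × ℕ => R q.1) := hR.comp hq
  have hc' : Poly (fun q : α × ℕ => c q.1) := hc.comp hq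
  have hcs : Poly (fun q : α × ℕ => some (c q.1)) := Poly.some hc'
  have hp1 : Poly (fun q : α × ℕ => q.2 - 1) := Poly.pred hp
  have hkp : Poly (fun q : α × ℕ => k q.1 - q.2) := H.MP_5be563_lc.PT.Poly.sub hk' hp
  have hf : Poly (fun _ : α × ℕ => false) := H.MP_5be563_lc.PT.Poly.const false
  have h1' : Poly (fun _ : α × ℕ => 1) := H.MP_5be563_lc.PT.Poly.const 1
  have h1 : Poly (fun q : α × ℕ => (R q.1).getD q.2 false) := Poly.getD hp hR' hf
  have h2 : Poly (fun q : α × ℕ => (R q.1).getD (q.2 - 1) false) := Poly.getD hp1 hR' hf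
  have h3' : Poly (fun q : α × ℕ => (v q.1)[k q.1 - q.2]?) := Poly.getElem? hkp hv'
  have h4' : Poly (fun q : α × ℕ => (u q.1)[q.2 - 1]?) := Poly.getElem? hp1 hu'
  have h3 : Poly (fun q : α × ℕ => decide ((v q.1)[k q.1 - q.2]? = some (c q.1))) :=
    Poly.decEq h3' hcs
  have h4 : Poly (fun q : α × ℕ => decide ((u q.1)[q.2 - 1]? = some (c q.1))) :=
    Poly.decEq h4' hcs
  have h5 : Poly (fun q : α × ℕ => decide (1 ≤ q.2)) := Poly.natle h1' hp
  have h6 : Poly (fun q : α × ℕ => (R q.1).getD q.2 false &&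
    decide ((v q.1)[k q.1 - q.2]? = some (c q.1))) := Poly.and h1 h3
  have h7 : Poly (fun q : α × ℕ => (R q.1).getD (q.2 - 1) false &&
    decide ((u q.1)[q.2 - 1]? = some (c q.1))) := Poly.and h2 h4
  have h8 : Poly (fun q : α × ℕ => decide (1 ≤ q.2) && ((R q.1).getD (q.2 - 1) false &&
    decide ((u q.1)[q.2 - 1]? = some (c q.1)))) := Poly.and h5 h7
  have h9 : Poly (fun q : α × ℕ => ((R q.1).getD q.2 false &&
    decide ((v q.1)[k q.1 - q.2]? = some (c q.1))) ||
      (decide (1 ≤ q.2) && ((R q.1).getD (q.2 - 1) false &&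
        decide ((u q.1)[q.2 - 1]? = some (c q.1))))) := Poly.or h6 h8
  have hul : Poly (fun a => (u a).length) := Poly.length hu
  have hul1 : Poly (fun a => (u a).length + 1) := Poly.succ hul
  have hr : Poly (fun a => List.range ((u a).length + 1)) := Poly.range hul1
  have h10 : Poly (fun a => (List.range ((u a).length + 1)).map fun p =>
      ((R a).getD p false && decide ((v a)[k a - p]? = some (c a))) ||
      (decide (1 ≤ p) && ((R a).getD (p - 1) false && decide ((u a)[p - 1]? = some (c a))))) :=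
    H.MP_5be563_lc.PT.Poly.map h9 hr
  exact h10

theorem PB_look {tab : α → List (List ℕ)} {q c : α → ℕ} (htab : Poly tab) (hq : Poly q)
    (hc : Poly c) : Poly (fun a => look (tab a) (q a) (c a)) := by
  have h0 : Poly (fun _ : α => ([] : List ℕ)) := H.MP_5be563_lc.PT.Poly.const []
  have h1 : Poly (fun _ : α => 0) := H.MP_5be563_lc.PT.Poly.const 0
  have h2 : Poly (fun a => (tab a).getD (q a) []) := Poly.getD hq htab h0
  have h3 : Poly (fun a => ((tab a).getD (q a) []).getD (c a) 0) := Poly.getD hc h2 h1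
  exact h3

theorem PB_nxt {s : α → ℕ} {tab : α → List (List ℕ)} {u v : α → List ℕ} {C k : α → ℕ}
    {L : α → List (ℕ × List Bool)} (hs : Poly s) (htab : Poly tab) (hu : Poly u)
    (hv : Poly v) (hC : Poly C) (hk : Poly k) (hL : Poly L) :
    Poly (fun a => nxt (s a) (tab a) (u a) (v a) (C a) (k a) (L a)) := by
  have hf1 : Poly (fun q : (α × (ℕ × List Bool)) × ℕ => q.1) := Poly.fst
  have ha : Poly (fun q : (α × (ℕ × List Bool)) × ℕ => q.2) := Poly.snd
  have hfst : Poly (fun q : (α × (ℕ × List Bool)) × ℕ => q.1.1) := Poly.fst.comp hf1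
  have he : Poly (fun q : (α × (ℕ × List Bool)) × ℕ => q.1.2) := Poly.snd.comp hf1
  have he1 : Poly (fun q : (α × (ℕ × List Bool)) × ℕ => q.1.2.1) := Poly.fst.comp he
  have he2 : Poly (fun q : (α × (ℕ × List Bool)) × ℕ => q.1.2.2) := Poly.snd.comp he
  have ht1 : Poly (fun q : (α × (ℕ × List Bool)) × ℕ => tab q.1.1) := htab.comp hfst
  have hu1 : Poly (fun q : (α × (ℕ × List Bool)) × ℕ => u q.1.1) := hu.comp hfst
  have hv1 : Poly (fun q : (α × (ℕ × List Bool)) × ℕ => v q.1.1) := hv.comp hfst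
  have hk1 : Poly (fun q : (α × (ℕ × List Bool)) × ℕ => k q.1.1) := hk.comp hfst
  have h1 : Poly (fun q : (α × (ℕ × List Bool)) × ℕ => look (tab q.1.1) q.1.2.1 q.2) :=
    PB_look ht1 he1 ha
  have h2 : Poly (fun q : (α × (ℕ × List Bool)) × ℕ =>
      stp (u q.1.1) (v q.1.1) (k q.1.1) q.1.2.2 q.2) := poly_stp hu1 hv1 hk1 he2 ha
  have h3 : Poly (fun q : (α × (ℕ × List Bool)) × ℕ => (look (tab q.1.1) q.1.2.1 q.2,
      stp (u q.1.1) (v q.1.1) (k q.1.1) q.1.2.2 q.2)) := Poly.pair h1 h2
  have hf0 : Poly (fun p : α × (ℕ × List Bool) => p.1) := Poly.fst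
  have hs1 : Poly (fun p : α × (ℕ × List Bool) => s p.1) := hs.comp hf0
  have hr : Poly (fun p : α × (ℕ × List Bool) => List.range (s p.1)) := Poly.range hs1
  have h4 : Poly (fun p : α × (ℕ × List Bool) => (List.range (s p.1)).map fun a =>
      (look (tab p.1) p.2.1 a, stp (u p.1) (v p.1) (k p.1) p.2.2 a)) :=
    H.MP_5be563_lc.PT.Poly.map h3 hr
  have h5 : Poly (fun a => (L a).flatMap fun e => (List.range (s a)).map fun b =>
      (look (tab a) e.1 b, stp (u a) (v a) (k a) e.2 b)) := Poly.flatMap h4 hL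
  have h6 : Poly (fun a => dd ((L a).flatMap fun e => (List.range (s a)).map fun b =>
      (look (tab a) e.1 b, stp (u a) (v a) (k a) e.2 b))) := poly_dd h5
  have h7 : Poly (fun a => (dd ((L a).flatMap fun e => (List.range (s a)).map fun b =>
      (look (tab a) e.1 b, stp (u a) (v a) (k a) e.2 b))).take (C a)) := Poly.take hC h6
  exact h7

theorem PB_full {acc : α → List Bool} {u v : α → List ℕ} {k : α → ℕ}
    (hacc : Poly acc) (hu : Poly u) (hv : Poly v) (hk : Poly k) :
    Poly (fun q : α × (ℕ × List Bool) => (acc q.1).getD q.2.1 false) ∧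
    Poly (fun q : α × (ℕ × List Bool) => decide (k q.1 = (u q.1).length + (v q.1).length) &&
      q.2.2.getD (u q.1).length false) := by
  have hfst : Poly (fun q : α × (ℕ × List Bool) => q.1) := Poly.fst
  have he : Poly (fun q : α × (ℕ × List Bool) => q.2) := Poly.snd
  have he1 : Poly (fun q : α × (ℕ × List Bool) => q.2.1) := Poly.fst.comp he
  have he2 : Poly (fun q : α × (ℕ × List Bool) => q.2.2) := Poly.snd.comp he
  have hu1 : Poly (fun q : α × (ℕ × List Bool) => u q.1) := hu.comp hfst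
  have hv1 : Poly (fun q : α × (ℕ × List Bool) => v q.1) := hv.comp hfst
  have hk1 : Poly (fun q : α × (ℕ × List Bool) => k q.1) := hk.comp hfst
  have ha1 : Poly (fun q : α × (ℕ × List Bool) => acc q.1) := hacc.comp hfst
  have hul : Poly (fun q : α × (ℕ × List Bool) => (u q.1).length) := Poly.length hu1
  have hvl : Poly (fun q : α × (ℕ × List Bool) => (v q.1).length) := Poly.length hv1
  have hf : Poly (fun _ : α × (ℕ × List Bool) => false) := H.MP_5be563_lc.PT.Poly.const false
  have h1 : Poly (fun q : α × (ℕ × List Bool) => (acc q.1).getD q.2.1 false) :=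
    Poly.getD he1 ha1 hf
  have h2 : Poly (fun q : α × (ℕ × List Bool) => (u q.1).length + (v q.1).length) :=
    H.MP_5be563_lc.PT.Poly.add hul hvl
  have h3 : Poly (fun q : α × (ℕ × List Bool) =>
      decide (k q.1 = (u q.1).length + (v q.1).length)) := Poly.nateq hk1 h2
  have h4 : Poly (fun q : α × (ℕ × List Bool) => q.2.2.getD (u q.1).length false) :=
    Poly.getD hul he2 hf
  exact ⟨h1, Poly.and h3 h4⟩

theorem PB_bad1 {acc : α → List Bool} {u v : α → List ℕ} {k : α → ℕ}
    {L : α → List (ℕ × List Bool)} (hacc : Poly acc) (hu : Poly u) (hv : Poly v) (hk : Poly k)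
    (hL : Poly L) : Poly (fun a => bad1 (acc a) (u a) (v a) (k a) (L a)) := by
  obtain ⟨h1, h2⟩ := PB_full hacc hu hv hk
  have h3 : Poly (fun q : α × (ℕ × List Bool) =>
      !(decide (k q.1 = (u q.1).length + (v q.1).length) &&
        q.2.2.getD (u q.1).length false)) := Poly.not h2
  have h4 : Poly (fun q : α × (ℕ × List Bool) => (acc q.1).getD q.2.1 false &&
      !(decide (k q.1 = (u q.1).length + (v q.1).length) &&
        q.2.2.getD (u q.1).length false)) := Poly.and h1 h3
  have h5 : Poly (fun a => (L a).any fun e => (acc a).getD e.1 false &&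
      !(decide (k a = (u a).length + (v a).length) && e.2.getD (u a).length false)) :=
    Poly.any h4 hL
  exact h5

theorem PB_bad2 {acc : α → List Bool} {u v : α → List ℕ} {k : α → ℕ}
    {L : α → List (ℕ × List Bool)} (hacc : Poly acc) (hu : Poly u) (hv : Poly v) (hk : Poly k)
    (hL : Poly L) : Poly (fun a => bad2 (acc a) (u a) (v a) (k a) (L a)) := by
  obtain ⟨h1, h2⟩ := PB_full hacc hu hv hk
  have h3 : Poly (fun q : α × (ℕ × List Bool) => !((acc q.1).getD q.2.1 false)) := Poly.not h1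
  have h4 : Poly (fun q : α × (ℕ × List Bool) => !((acc q.1).getD q.2.1 false) &&
      (decide (k q.1 = (u q.1).length + (v q.1).length) &&
        q.2.2.getD (u q.1).length false)) := Poly.and h3 h2
  have h5 : Poly (fun a => (L a).any fun e => !((acc a).getD e.1 false) &&
      (decide (k a = (u a).length + (v a).length) && e.2.getD (u a).length false)) :=
    Poly.any h4 hL
  exact h5

theorem poly_one {s : α → ℕ} {tab : α → List (List ℕ)} {acc : α → List Bool} {u v : α → List ℕ}
    {C : α → ℕ} {t : α → Stt} (hs : Poly s) (htab : Poly tab) (hacc : Poly acc) (hu : Poly u)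
    (hv : Poly v) (hC : Poly C) (ht : Poly t) :
    Poly (fun a => one (s a) (tab a) (acc a) (u a) (v a) (C a) (t a)) := by
  have ht1 : Poly (fun a => (t a).1) := Poly.fst.comp ht
  have ht2 : Poly (fun a => (t a).2) := Poly.snd.comp ht
  have ht21 : Poly (fun a => (t a).2.1) := Poly.fst.comp ht2
  have ht22 : Poly (fun a => (t a).2.2) := Poly.snd.comp ht2
  have ht3 : Poly (fun a => (t a).2.2.1) := Poly.fst.comp ht22
  have ht4 : Poly (fun a => (t a).2.2.2) := Poly.snd.comp ht22
  have h1 : Poly (fun a => (t a).1 + 1) := Poly.succ ht1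
  have h2 : Poly (fun a => nxt (s a) (tab a) (u a) (v a) (C a) (t a).1 (t a).2.1) :=
    PB_nxt hs htab hu hv hC ht1 ht21
  have h3 : Poly (fun a => bad1 (acc a) (u a) (v a) (t a).1 (t a).2.1) :=
    PB_bad1 hacc hu hv ht1 ht21
  have h4 : Poly (fun a => bad2 (acc a) (u a) (v a) (t a).1 (t a).2.1) :=
    PB_bad2 hacc hu hv ht1 ht21
  have h5 : Poly (fun a => (t a).2.2.1 || bad1 (acc a) (u a) (v a) (t a).1 (t a).2.1) :=
    Poly.or ht3 h3
  have h6 : Poly (fun a => (t a).2.2.2 || bad2 (acc a) (u a) (v a) (t a).1 (t a).2.1) :=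
    Poly.or ht4 h4
  have h7 : Poly (fun a => ((t a).2.2.1 || bad1 (acc a) (u a) (v a) (t a).1 (t a).2.1,
      (t a).2.2.2 || bad2 (acc a) (u a) (v a) (t a).1 (t a).2.1)) := Poly.pair h5 h6
  have h8 : Poly (fun a => (nxt (s a) (tab a) (u a) (v a) (C a) (t a).1 (t a).2.1,
      (t a).2.2.1 || bad1 (acc a) (u a) (v a) (t a).1 (t a).2.1,
      (t a).2.2.2 || bad2 (acc a) (u a) (v a) (t a).1 (t a).2.1)) := Poly.pair h2 h7
  have h9 : Poly (fun a => ((t a).1 + 1, nxt (s a) (tab a) (u a) (v a) (C a) (t a).1 (t a).2.1,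
      (t a).2.2.1 || bad1 (acc a) (u a) (v a) (t a).1 (t a).2.1,
      (t a).2.2.2 || bad2 (acc a) (u a) (v a) (t a).1 (t a).2.1)) := Poly.pair h1 h8
  exact h9

end Pool.Agent.SF
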