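import Pool.Agent.H.MP_53e59f_lc.SF.Tok

/-!
# The lists of tokens
-/

namespace Pool.Agent.SF

open Classical in
/-- The list of tokens of a word. -/
noncomputable def RB (u v w : List ℕ) : List Bool :=
  (List.range (u.length + 1)).map fun p => decide (p ∈ Rs u v w)

private theorem Rb_map (f : ℕ → Bool) {n p : ℕ} (hp : p < n) :
    ((List.range n).map f).getD p false = f p := by
  rw [List.getD_eq_getElem?_getD, List.getElem?_map, List.getElem?_range hp, Option.map_some,
    Option.getD_some]

theorem RB_nil (u v : List ℕ) : RB u v [] = ini u := by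
  unfold RB ini
  refine List.map_congr_left fun p _ => ?_
  rw [decide_eq_decide]
  exact Tk_nil u v p

open Classical in
theorem RB_getD (u v w : List ℕ) {p : ℕ} (hp : p ≤ u.length) :
    (RB u v w).getD p false = true ↔ Tk u v w p := by
  unfold RB
  rw [Rb_map _ (Nat.lt_succ_of_le hp), decide_eq_true_iff]
  exact Iff.rfl

open Classical in
theorem RB_snoc (u v w : List ℕ) (a : ℕ) : RB u v (w ++ [a]) = stp u v w.length (RB u v w) a := by
  have h0 : ∀ l : List ℕ, RB u v l =
      (List.range (u.length + 1)).map fun p => decide (p ∈ Rs u v l) := fun _ => rfl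
  rw [h0 (w ++ [a])]
  unfold stp
  refine List.map_congr_left fun p hp => ?_
  have hp1 : p ≤ u.length := Nat.lt_succ_iff.1 (List.mem_range.1 hp)
  rw [Bool.eq_iff_iff, decide_eq_true_iff, Bool.or_eq_true, Bool.and_eq_true, Bool.and_eq_true,
    Bool.and_eq_true, RB_getD u v w hp1, RB_getD u v w ((Nat.sub_le p 1).trans hp1),
    decide_eq_true_iff, decide_eq_true_iff, decide_eq_true_iff]
  exact Tk_snoc u v w a p

theorem RB_len (u v w : List ℕ) : (RB u v w).length = u.length + 1 := by
  unfold RB
  rw [List.length_map, List.length_range]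

end Pool.Agent.SF
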