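import Pool.Agent.H.MP_53e59f_lc.SF.Defs

/-!
# Interleavings

* `Sh.length`, `Sh.symm`, `Sh.count`: induction.
* `Sh_snoc`: (⟸) induction on `Sh` (two lemmas: `Sh (u ++ [a]) v (w ++ [a])`, `Sh u (v ++ [a]) (w ++ [a])`);
  (⟹) induction on `w` (generalizing `u`, `v`).
* `Sh_map`: (⟹) induction on `w` generalizing `u`, `v`.
-/

namespace Pool.Agent.SF

private theorem ShL_nil {α : Type} {u v : List α} (h : Sh u v []) : u = [] ∧ v = [] := by
  cases h
  exact ⟨rfl, rfl⟩

private theorem ShL_cons {α : Type} {u v w : List α} {a : α} (h : Sh u v (a :: w)) :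
    (∃ u', u = a :: u' ∧ Sh u' v w) ∨ ∃ v', v = a :: v' ∧ Sh u v' w := by
  cases h with
  | left _ h => exact Or.inl ⟨_, rfl, h⟩
  | right _ h => exact Or.inr ⟨_, rfl, h⟩

theorem Sh.length {α : Type} {u v w : List α} (h : Sh u v w) : w.length = u.length + v.length := by
  induction h with
  | nil => rfl
  | left a _ ih =>
    rw [List.length_cons, List.length_cons, ih]
    omega
  | right a _ ih =>
    rw [List.length_cons, List.length_cons, ih]
    omega

theorem Sh.symm {α : Type} {u v w : List α} (h : Sh u v w) : Sh v u w := by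
  induction h with
  | nil => exact .nil
  | left a _ ih => exact .right a ih
  | right a _ ih => exact .left a ih

theorem Sh.count {u v w : List ℕ} (h : Sh u v w) (z : ℕ) : w.count z = u.count z + v.count z := by
  induction h with
  | nil => simp
  | left a _ ih =>
    rw [List.count_cons, List.count_cons, ih]
    omega
  | right a _ ih =>
    rw [List.count_cons, List.count_cons, ih]
    omega

private theorem ShL_left {α : Type} {u v w : List α} (a : α) (h : Sh u v w) :
    Sh (u ++ [a]) v (w ++ [a]) := by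
  induction h with
  | nil => exact .left a .nil
  | left b _ ih => exact .left b ih
  | right b _ ih => exact .right b ih

private theorem ShL_right {α : Type} {u v w : List α} (a : α) (h : Sh u v w) :
    Sh u (v ++ [a]) (w ++ [a]) := by
  induction h with
  | nil => exact .right a .nil
  | left b _ ih => exact .left b ih
  | right b _ ih => exact .right b ih

theorem Sh_snoc {α : Type} {u v w : List α} {a : α} : Sh u v (w ++ [a]) ↔
    (∃ u', u = u' ++ [a] ∧ Sh u' v w) ∨ ∃ v', v = v' ++ [a] ∧ Sh u v' w := by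
  constructor
  · intro h
    induction w generalizing u v with
    | nil =>
      rcases ShL_cons h with ⟨u', rfl, h1⟩ | ⟨v', rfl, h1⟩
      · obtain ⟨rfl, rfl⟩ := ShL_nil h1
        exact Or.inl ⟨[], rfl, .nil⟩
      · obtain ⟨rfl, rfl⟩ := ShL_nil h1
        exact Or.inr ⟨[], rfl, .nil⟩
    | cons b w ih =>
      rcases ShL_cons (show Sh u v (b :: (w ++ [a])) from h) with ⟨u', rfl, h1⟩ | ⟨v', rfl, h1⟩
      · rcases ih h1 with ⟨u'', rfl, h2⟩ | ⟨v'', rfl, h2⟩
        · exact Or.inl ⟨b :: u'', rfl, .left b h2⟩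
        · exact Or.inr ⟨v'', rfl, .left b h2⟩
      · rcases ih h1 with ⟨u'', rfl, h2⟩ | ⟨v'', rfl, h2⟩
        · exact Or.inl ⟨u'', rfl, .right b h2⟩
        · exact Or.inr ⟨b :: v'', rfl, .right b h2⟩
  · rintro (⟨u', rfl, h⟩ | ⟨v', rfl, h⟩)
    · exact ShL_left a h
    · exact ShL_right a h

theorem Sh_map {α β : Type} {f : α → β} (hf : Function.Injective f) {u v w : List α} :
    Sh (u.map f) (v.map f) (w.map f) ↔ Sh u v w := by
  constructor
  · intro h
    induction w generalizing u v with
    | nil =>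
      obtain ⟨h1, h2⟩ := ShL_nil h
      rw [List.map_eq_nil_iff] at h1 h2
      subst h1
      subst h2
      exact .nil
    | cons c w ih =>
      rcases ShL_cons (show Sh (u.map f) (v.map f) (f c :: w.map f) from h) with
        ⟨u', h1, h2⟩ | ⟨v', h1, h2⟩
      · obtain ⟨x, l, rfl, h3, rfl⟩ := List.map_eq_cons_iff.1 h1
        rw [hf h3]
        exact .left c (ih h2)
      · obtain ⟨x, l, rfl, h3, rfl⟩ := List.map_eq_cons_iff.1 h1
        rw [hf h3]
        exact .right c (ih h2)
  · intro h
    induction h with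
    | nil => exact .nil
    | left a _ ih => exact .left (f a) ih
    | right a _ ih => exact .right (f a) ih

/-- Every interleaving of images is an image. -/
theorem Sh_map_ex {α β : Type} {f : α → β} {u v : List α} {w : List β}
    (h : Sh (u.map f) (v.map f) w) : ∃ w', w = List.map f w' := by
  induction w generalizing u v with
  | nil => exact ⟨[], rfl⟩
  | cons b w ih =>
    rcases ShL_cons h with ⟨u', h1, h2⟩ | ⟨v', h1, h2⟩
    · obtain ⟨x, l, rfl, rfl, rfl⟩ := List.map_eq_cons_iff.1 h1
      obtain ⟨w', rfl⟩ := ih h2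
      exact ⟨x :: w', rfl⟩
    · obtain ⟨x, l, rfl, rfl, rfl⟩ := List.map_eq_cons_iff.1 h1
      obtain ⟨w', rfl⟩ := ih h2
      exact ⟨x :: w', rfl⟩

end Pool.Agent.SF
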