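import Pool.Agent.H.MP_5be563_lc.PT.Tree

/-!
# Definitions used in the statement

Interleavings of words, the number of blocks of a word, instances of DFA-SHUFFLE-NEQ and their codes.
-/

namespace Pool.Agent.SF

open Pool.Agent.H.MP_5be563_lc.PT

/-- `Sh u v w`: the word `w` is an interleaving of `u` and `v`, i.e. an element of the shuffle of `u`
and `v`. -/
inductive Sh {α : Type} : List α → List α → List α → Prop
  | nil : Sh [] [] []
  | left (a : α) {u v w : List α} (h : Sh u v w) : Sh (a :: u) v (a :: w)
  | right (a : α) {u v w : List α} (h : Sh u v w) : Sh u (a :: v) (a :: w)

/-- The number of maximal blocks of equal letters. -/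
def runs {α : Type} [DecidableEq α] : List α → ℕ
  | [] => 0
  | [_] => 1
  | a :: b :: l => (if a = b then 0 else 1) + runs (b :: l)

/-- The data of an instance: the number of letters, the transition table (a list of rows, one row for
every state), the start state, the list which tells for every state if it is accepting, and the two
words. -/
abbrev Dat := ℕ × List (List ℕ) × ℕ × List Bool × List ℕ × List ℕ

/-- An instance of DFA-SHUFFLE-NEQ: an alphabet with `s` letters, a deterministic automaton with `m`
states, two words. -/
structure Inst where
  /-- number of letters -/
  s : ℕ
  /-- number of states -/
  m : ℕ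
  /-- the automaton -/
  M : DFA (Fin s) (Fin m)
  /-- the first word -/
  u : List (Fin s)
  /-- the second word -/
  v : List (Fin s)

open Classical in
/-- The data of an instance. -/
noncomputable def Inst.dat (x : Inst) : Dat :=
  (x.s, (List.finRange x.m).map (fun q => (List.finRange x.s).map fun a => (x.M.step q a : ℕ)),
    (x.M.start : ℕ), (List.finRange x.m).map (fun q => decide (q ∈ x.M.accept)),
    x.u.map Fin.val, x.v.map Fin.val)

/-- The input string of an instance: the data as a bit string, where a list `a, b, ..` is written as
`1 a 1 b .. 0`, a pair as `1 a b`, a number `n` in unary as `(10)^n 0`, `false` as `0` and `true` as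
`100`. (All numbers in the data are at most the number of letters or states, so the length is
polynomially related to the one for binary numbers.) -/
noncomputable def Inst.encode (x : Inst) : List Bool := (enc x.dat).bits

end Pool.Agent.SF
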