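import Pool.Agent.H.MP_53e59f_lc.SF.ShL

/-!
# Tokens

* `Tk_snoc`: with `Sh_snoc`; `u.take p = u' ++ [a]` iff `1 ≤ p`, `u' = u.take (p - 1)`,
  `u[p - 1]? = some a` (for `p ≤ u.length`), the same for `v`.
* `Tk_full`: `List.take_length`; `Tk_count`: `Sh.count`.
-/

namespace Pool.Agent.SF

private theorem Tok_take {l l' : List ℕ} {n a : ℕ} (hn : n ≤ l.length)
    (h : l.take n = l' ++ [a]) : ∃ m, n = m + 1 ∧ l' = l.take m ∧ l[m]? = some a := by
  rcases n with _ | m
  · rw [List.take_zero] at h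
    have := congrArg List.length h
    simp at this
  · refine ⟨m, rfl, ?_⟩
    have hm : m < l.length := by omega
    rw [List.take_add_one, List.getElem?_eq_getElem hm, Option.toList_some] at h
    obtain ⟨h1, h2⟩ := List.append_inj' h rfl
    refine ⟨h1.symm, ?_⟩
    rw [List.getElem?_eq_getElem hm]
    have h3 : l[m] = a := by simpa using h2
    rw [h3]

private theorem Tok_take' {l : List ℕ} {m a : ℕ} (h : l[m]? = some a) :
    m < l.length ∧ l.take (m + 1) = l.take m ++ [a] := by
  refine ⟨?_, ?_⟩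
  · by_contra hm
    rw [List.getElem?_eq_none (by omega)] at h
    exact absurd h (by simp)
  · rw [List.take_add_one, h, Option.toList_some]

theorem Tk_nil (u v : List ℕ) (p : ℕ) : Tk u v [] p ↔ p = 0 := by
  constructor
  · intro h
    have := h.2.1
    simpa using this
  · rintro rfl
    exact ⟨Nat.zero_le _, le_rfl, Nat.zero_le _, by simpa using Sh.nil⟩

theorem Tk_snoc (u v w : List ℕ) (a p : ℕ) : Tk u v (w ++ [a]) p ↔
    (Tk u v w p ∧ v[w.length - p]? = some a) ∨
      (1 ≤ p ∧ Tk u v w (p - 1) ∧ u[p - 1]? = some a) := by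
  have hl : (w ++ [a]).length = w.length + 1 := by simp
  constructor
  · rintro ⟨h1, h2, h3, h4⟩
    rw [hl] at h2 h3 h4
    rcases Sh_snoc.1 h4 with ⟨u', e, h5⟩ | ⟨v', e, h5⟩
    · obtain ⟨m, rfl, rfl, h6⟩ := Tok_take h1 e
      refine Or.inr ⟨by omega, ⟨?_, ?_, ?_, ?_⟩, ?_⟩
      · rw [Nat.add_sub_cancel]; omega
      · rw [Nat.add_sub_cancel]; omega
      · rw [Nat.add_sub_cancel]; omega
      · rw [Nat.add_sub_cancel]
        rwa [Nat.add_sub_add_right] at h5
      · rw [Nat.add_sub_cancel]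
        exact h6
    · obtain ⟨m, hm, rfl, h6⟩ := Tok_take h3 e
      have hm' : m = w.length - p := by omega
      subst hm'
      exact Or.inl ⟨⟨h1, by omega, by omega, h5⟩, h6⟩
  · rintro (⟨⟨h1, h2, h3, h4⟩, h5⟩ | ⟨h0, ⟨h1, h2, h3, h4⟩, h5⟩)
    · obtain ⟨h6, h7⟩ := Tok_take' h5
      refine ⟨h1, by omega, by omega, ?_⟩
      rw [hl, Nat.sub_add_comm h2, h7]
      exact Sh_snoc.2 (Or.inr ⟨_, rfl, h4⟩)
    · obtain ⟨h6, h7⟩ := Tok_take' h5
      have e1 : p - 1 + 1 = p := by omega
      rw [e1] at h7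
      refine ⟨by omega, by omega, by omega, ?_⟩
      have e2 : (w ++ [a]).length - p = w.length - (p - 1) := by omega
      rw [e2, h7]
      exact Sh_snoc.2 (Or.inl ⟨_, rfl, h4⟩)

theorem Tk_full (u v w : List ℕ) : (w.length = u.length + v.length ∧ Tk u v w u.length) ↔
    Sh u v w := by
  constructor
  · rintro ⟨h, -, -, -, h4⟩
    have e : w.length - u.length = v.length := by omega
    rwa [e, List.take_length, List.take_length] at h4
  · intro h
    have hl := h.length
    refine ⟨hl, le_rfl, by omega, by omega, ?_⟩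
    have e : w.length - u.length = v.length := by omega
    rwa [e, List.take_length, List.take_length]

theorem Tk_count {u v w : List ℕ} {p : ℕ} (h : Tk u v w p) (z : ℕ) :
    w.count z = (u.take p).count z + (v.take (w.length - p)).count z :=
  h.2.2.2.count z

end Pool.Agent.SF
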