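import Pool.Agent.H.MP_53e59f_lc.SF.Tok
import Pool.Agent.H.MP_53e59f_lc.SF.CT

/-!
# At most one token in a column after a letter different from `x`

Let `w₁`, `w₂` be two words with the same length and the same number of letters `z ≠ x`, `n = w₁.length + 1`, and
(without loss of generality) `p < p'` tokens of `w₁ ++ [z]` and `w₂ ++ [z]` in the column (`A < p`, `p' ≤ E`).
* `z ∉ v`: `Tk_snoc` for `p'`: it came through `u`, `u[p' - 1]? = some z`. `Tk_count` for `z`:
  `(v.take _).count z = 0`, so `(u.take p).count z = (u.take p').count z`; but `p ≤ p' - 1`.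
* `z ∈ v`: `u[p - 1]?` is not `some z` (`ltr`), so `p` came through `v`: `v[n - 1 - p]? = some z`.
  `Tk_count`: `(u.take p).count z = (u.take p').count z` (no letter `z` in the column), so
  `(v.take (n - p)).count z = (v.take (n - p')).count z`; but `n - p' ≤ n - 1 - p`.
-/

namespace Pool.Agent.SF

variable {u v : List ℕ} {A E x : ℕ}

private theorem Uniq_take {l : List ℕ} {j z : ℕ} (h : l[j]? = some z) :
    (l.take (j + 1)).count z = (l.take j).count z + 1 := by
  rw [List.take_add_one, h]
  simp

private theorem Uniq_mono (l : List ℕ) {i j : ℕ} (h : i ≤ j) (z : ℕ) :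
    (l.take i).count z ≤ (l.take j).count z := by
  have h1 : l.take i = (l.take j).take i := by
    rw [List.take_take, Nat.min_eq_left h]
  rw [h1]
  exact List.Sublist.count_le z (List.take_sublist i (l.take j))

private theorem Uniq_eq (l : List ℕ) {i j : ℕ} (h : i ≤ j) {z : ℕ}
    (hz : ∀ t, i ≤ t → t < j → l[t]? ≠ some z) : (l.take i).count z = (l.take j).count z := by
  induction j, h using Nat.le_induction with
  | base => rfl
  | succ j hj ih =>
    rw [ih fun t ht ht' => hz t ht (by omega), List.take_add_one, List.count_append]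
    have h1 := hz j hj (by omega)
    cases h2 : l[j]? with
    | none => simp
    | some b =>
      have h3 : b ≠ z := by
        rintro rfl
        exact h1 h2
      simp [h3]

private theorem Uniq_lt (h : Colm u v A E x) {w₁ w₂ : List ℕ} {z : ℕ} (hz : z ≠ x)
    (hl : w₁.length = w₂.length) (hc : w₁.count z = w₂.count z) {p p' : ℕ}
    (hp : Tk u v (w₁ ++ [z]) p) (hp' : Tk u v (w₂ ++ [z]) p') (h1 : A < p)
    (h2' : p' ≤ E) (hlt : p < p') : False := by
  have c := Tk_count hp z
  have c' := Tk_count hp' z
  have hc2 : (w₁ ++ [z]).count z = (w₂ ++ [z]).count z := by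
    rw [List.count_append, List.count_append, hc]
  rw [hc2, c'] at c
  by_cases hv : z ∈ v
  · have hno : ∀ t, A ≤ t → t < E → u[t]? ≠ some z := by
      intro t ht ht' e
      rcases h.ltr t ht ht' z e with e1 | e1
      · exact hz e1
      · exact e1 hv
    rcases (Tk_snoc u v w₁ z p).1 hp with ⟨ht, e⟩ | ⟨_, _, e⟩
    · have hu := Uniq_eq u hlt.le (z := z) fun t ha hb => hno t (by omega) (by omega)
      have hpw : p ≤ w₁.length := ht.2.1
      have e1 := Uniq_take e
      have hl1 : (w₁ ++ [z]).length = w₁.length + 1 := by simp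
      have hl2 : (w₂ ++ [z]).length = w₁.length + 1 := by simp [hl]
      rw [hl1, hl2] at c
      have e2 : w₁.length + 1 - p = w₁.length - p + 1 := by omega
      rw [e2] at c
      have e3 := Uniq_mono v (i := w₁.length + 1 - p') (j := w₁.length - p) (by omega) z
      omega
    · exact hno (p - 1) (by omega) (by omega) e
  · have hv0 : ∀ k, (v.take k).count z = 0 := by
      intro k
      exact List.count_eq_zero_of_not_mem fun hm => hv (List.mem_of_mem_take hm)
    rw [hv0, hv0] at c
    rcases (Tk_snoc u v w₂ z p').1 hp' with ⟨_, e⟩ | ⟨_, _, e⟩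
    · exact hv (List.mem_of_getElem? e)
    · have e1 := Uniq_take e
      have e2 : p' - 1 + 1 = p' := by omega
      rw [e2] at e1
      have e3 := Uniq_mono u (i := p) (j := p' - 1) (by omega) z
      omega

/-- The token in the column depends only on the length of the word and on the number of letters `z`. -/
theorem col_uniq2 (h : Colm u v A E x) {w₁ w₂ : List ℕ} {z : ℕ} (hz : z ≠ x)
    (hl : w₁.length = w₂.length) (hc : w₁.count z = w₂.count z) {p p' : ℕ}
    (hp : Tk u v (w₁ ++ [z]) p) (hp' : Tk u v (w₂ ++ [z]) p') (h1 : A < p) (h2 : p ≤ E)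
    (h1' : A < p') (h2' : p' ≤ E) : p = p' := by
  rcases lt_trichotomy p p' with hlt | heq | hlt
  · exact (Uniq_lt h hz hl hc hp hp' h1 h2' hlt).elim
  · exact heq
  · exact (Uniq_lt h hz hl.symm hc.symm hp' hp h1' h2 hlt).elim

theorem col_uniq (h : Colm u v A E x) {w : List ℕ} {z : ℕ} (hz : z ≠ x) {p p' : ℕ}
    (hp : Tk u v (w ++ [z]) p) (hp' : Tk u v (w ++ [z]) p') (h1 : A < p) (h2 : p ≤ E)
    (h1' : A < p') (h2' : p' ≤ E) : p = p' :=
  col_uniq2 h hz rfl rfl hp hp' h1 h2 h1' h2'

end Pool.Agent.SF
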